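import Pool.Agent.W868.Defs

/-!
# Models of set theory without the power set axiom
-/

set_option autoImplicit false

namespace Q207.CM

open Pool.Agent.W868 (Fml Sat)

/-- `M` is a transitive model of set theory without the power set axiom: a transitive class of
sets that satisfies the axioms of pairing, union and infinity, and the schemes of separation and
collection for all formulas with parameters from `M` (extensionality and foundation hold in every
transitive class). -/
structure IsZFm (M : Set ZFSet.{0}) : Prop where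
  trans : ∀ x ∈ M, ∀ y ∈ x, y ∈ M
  pairing : ∀ x ∈ M, ∀ y ∈ M, ({x, y} : ZFSet.{0}) ∈ M
  union : ∀ x ∈ M, ZFSet.sUnion x ∈ M
  infinity : ZFSet.omega ∈ M
  separation : ∀ φ : Fml ZFSet.{0} 1, φ.Over M → ∀ x ∈ M, ∃ y ∈ M, ∀ z,
    z ∈ y ↔ z ∈ x ∧ Sat M id φ ![z]
  collection : ∀ φ : Fml ZFSet.{0} 2, φ.Over M → ∀ x ∈ M,
    (∀ z ∈ x, ∃ w ∈ M, Sat M id φ ![z, w]) →
      ∃ y ∈ M, ∀ z ∈ x, ∃ w ∈ y, Sat M id φ ![z, w]

/-- The reflection principle in `M`: for every finite list of formulas with one free variable and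
parameters from `M` there is a transitive set `N ∈ M` that contains the parameters such that each
of the formulas is absolute between `N` and `M`. -/
def Reflects (M : Set ZFSet.{0}) : Prop :=
  ∀ l : List (Fml ZFSet.{0} 1), (∀ φ ∈ l, φ.Over M) →
    ∃ N ∈ M, (∀ y ∈ N, ∀ z ∈ y, z ∈ N) ∧ (∀ φ ∈ l, φ.Over {z | z ∈ N}) ∧
      ∀ φ ∈ l, ∀ y ∈ N, (Sat {z | z ∈ N} id φ ![y] ↔ Sat M id φ ![y])

/-- The hereditarily countable sets: the elements of countable transitive classes. -/
def HC : Set ZFSet.{0} :=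
  {x | ∃ T : Set ZFSet.{0}, T.Countable ∧ (∀ y ∈ T, ∀ z ∈ y, z ∈ T) ∧ x ∈ T}

end Q207.CM
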