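import Pool.Agent.Q207.CF.Ty
import Pool.Agent.Q207.CM.Defs
import Pool.Agent.W868.Itr

/-!
# Definability in transitive models of set theory without the power set axiom

This is the development of `Pool.Agent.W868` (Dfn, Tool, Im, Rec), with the power set axiom
replaced by the collection scheme.
-/

set_option autoImplicit false
set_option linter.unreachableTactic false
set_option linter.unusedTactic false

namespace Q207.CM

open ZFSet (pair)
open Pool.Agent.W868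
open Q207.CF

theorem IsZFm.base {M : Set ZFSet.{0}} (hM : IsZFm M) : IsBase M :=
  ⟨hM.trans, hM.pairing, hM.union⟩

theorem IsZFm.replacement {M : Set ZFSet.{0}} (hM : IsZFm M) : ∀ φ : Fml ZFSet.{0} 2,
    φ.Over M → ∀ x ∈ M, (∀ z ∈ x, ∃! w, w ∈ M ∧ Sat M id φ ![z, w]) →
      ∃ y ∈ M, ∀ w, w ∈ y ↔ w ∈ M ∧ ∃ z ∈ x, Sat M id φ ![z, w] := by
  intro φ hφ x hx h
  obtain ⟨y, hy, h1⟩ := hM.collection φ hφ x hx fun z hz => by
    obtain ⟨w, hw, -⟩ := h z hz
    exact ⟨w, hw.1, hw.2⟩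
  have h2 : Dfn M M fun w : Fin 1 → ZFSet.{0} => ∃ z ∈ x, Sat M id φ ![z, w 0] := by
    refine hM.base.bex (Q := fun z w => Sat M id φ ![z, w 0]) (DfnF.const hx) ?_
    refine ⟨φ, hφ, fun v _ => ?_⟩
    have h3 : v = ![v 0, Fin.tail v 0] := by
      funext i
      fin_cases i <;> rfl
    change Sat M id φ v ↔ Sat M id φ ![v 0, Fin.tail v 0]
    rw [← h3]
  obtain ⟨ψ, hψ, hψ2⟩ := h2
  obtain ⟨y', hy', h4⟩ := hM.separation ψ hψ y hy
  refine ⟨y', hy', fun w => ?_⟩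
  rw [h4]
  constructor
  · rintro ⟨hw, h5⟩
    have hwM := hM.trans _ hy _ hw
    exact ⟨hwM, (hψ2 ![w] (by intro i; fin_cases i; exact hwM)).1 h5⟩
  · rintro ⟨hwM, z, hz, h5⟩
    obtain ⟨w', hw', h6⟩ := h1 z hz
    obtain ⟨w0, -, h7⟩ := h z hz
    have h8 := h7 w' ⟨hM.trans _ hy _ hw', h6⟩
    have h9 := h7 w ⟨hwM, h5⟩
    refine ⟨?_, (hψ2 ![w] (by intro i; fin_cases i; exact hwM)).2 ⟨z, hz, h5⟩⟩
    rw [h9, ← h8]
    exact hw'

namespace IsZFm

variable {M : Set ZFSet.{0}} (hM : IsZFm M) {n : ℕ}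

include hM

theorem pair_mem {x y : ZFSet.{0}} (hx : x ∈ M) (hy : y ∈ M) : ZFSet.pair x y ∈ M :=
  (hM.base.pair' (DfnF.const hx) (DfnF.const hy)).1 Fin.elim0 fun i => i.elim0

theorem of_pair_mem {x y : ZFSet.{0}} (h : ZFSet.pair x y ∈ M) : x ∈ M ∧ y ∈ M := by
  have h1 : ({x, y} : ZFSet.{0}) ∈ M := hM.trans _ h _ (by simp [ZFSet.pair])
  exact ⟨hM.trans _ h1 _ (by simp), hM.trans _ h1 _ (by simp)⟩

theorem sep_mem {Q : ZFSet.{0} → Prop} (h : Dfn M M fun w : Fin 1 → ZFSet.{0} => Q (w 0))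
    {x : ZFSet.{0}} (hx : x ∈ M) : ZFSet.sep Q x ∈ M := by
  obtain ⟨φ, h1, h2⟩ := h
  obtain ⟨y, hy, h3⟩ := hM.separation φ h1 x hx
  have h4 : y = ZFSet.sep Q x := by
    ext z
    rw [h3, ZFSet.mem_sep]
    refine and_congr_right fun hz => h2 ![z] fun i => ?_
    fin_cases i
    exact hM.trans _ hx z hz
  exact h4 ▸ hy

theorem empty_mem : ∅ ∈ M := hM.trans _ hM.infinity _ ZFSet.omega_zero

theorem union_mem {x y : ZFSet.{0}} (hx : x ∈ M) (hy : y ∈ M) : x ∪ y ∈ M := by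
  have h := hM.union _ (hM.pairing _ hx _ hy)
  rwa [ZFSet.sUnion_pair] at h

theorem single_mem {x : ZFSet.{0}} (hx : x ∈ M) : ({x} : ZFSet.{0}) ∈ M := by
  have h := hM.pairing _ hx _ hx
  rwa [ZFSet.pair_eq_singleton] at h

theorem insert_mem {x y : ZFSet.{0}} (hx : x ∈ M) (hy : y ∈ M) : insert x y ∈ M := by
  have h := hM.union_mem (hM.single_mem hx) hy
  have h1 : ({x} ∪ y : ZFSet.{0}) = insert x y := by
    ext z
    simp
  rwa [h1] at h

end IsZFm

namespace IsZFm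

variable {M : Set ZFSet.{0}} (hM : IsZFm M) {n : ℕ}
  {F G H : (Fin n → ZFSet.{0}) → ZFSet.{0}}

include hM

theorem nat_mem (n : ℕ) : nat n ∈ M :=
  hM.trans _ hM.infinity _ (mem_omega_iff.2 ⟨n, rfl⟩)

/-- Replacement for definable functions. -/
theorem image_mem {x : ZFSet.{0}} (hx : x ∈ M) {f : ZFSet.{0} → ZFSet.{0}}
    (h : DfnF M M fun w : Fin 1 → ZFSet.{0} => f (w 0)) :
    ∃ y ∈ M, ∀ w, w ∈ y ↔ ∃ z ∈ x, w = f z := by
  obtain ⟨h1, φ, h2, h3⟩ := h
  have h4 : ∀ z ∈ M, ∀ w ∈ M, (Sat M id (φ.subst ![Sum.inl 1, Sum.inl 0]) ![z, w] ↔ w = f z) := by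
    intro z hz w hw
    rw [sat_subst]
    have h5 : (fun k : Fin 2 => Sum.elim (![z, w] : Fin 2 → ZFSet.{0}) id
        ((![Sum.inl 1, Sum.inl 0] : Fin 2 → Fin 2 ⊕ ZFSet.{0}) k)) = ![w, z] := by
      funext i
      fin_cases i <;> rfl
    rw [h5, h3]
    · rfl
    · intro i
      fin_cases i
      · exact hw
      · exact hz
  have h6 : ∀ z ∈ M, f z ∈ M := fun z hz => h1 (fun _ => z) fun _ => hz
  obtain ⟨y, hy, h7⟩ := hM.replacement (φ.subst ![Sum.inl 1, Sum.inl 0]) (by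
    refine over_subst _ _ (fun k => ?_) h2
    fin_cases k
    · exact TOver.inl _
    · exact TOver.inl _) x hx (by
    intro z hz
    have hzM := hM.trans _ hx _ hz
    exact ⟨f z, ⟨h6 z hzM, (h4 z hzM _ (h6 z hzM)).2 rfl⟩, fun w hw => (h4 z hzM w hw.1).1 hw.2⟩)
  refine ⟨y, hy, fun w => ?_⟩
  rw [h7]
  constructor
  · rintro ⟨hw, z, hz, h8⟩
    exact ⟨z, hz, (h4 z (hM.trans _ hx _ hz) w hw).1 h8⟩
  · rintro ⟨z, hz, rfl⟩
    have hzM := hM.trans _ hx _ hz
    exact ⟨h6 z hzM, z, hz, (h4 z hzM _ (h6 z hzM)).2 rfl⟩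

theorem prod_mem {x y : ZFSet.{0}} (hx : x ∈ M) (hy : y ∈ M) : ZFSet.prod x y ∈ M := by
  have hB := hM.base
  -- the sets {a} × y
  have h1 : DfnF M M fun w : Fin 2 → ZFSet.{0} => pair (w 1) (w 0) :=
    hB.pair' (DfnF.proj 1) (DfnF.proj 0)
  have hmem : ∀ a ∈ M, im (fun b => pair a b) y ∈ M := by
    intro a ha
    obtain ⟨z, hz, h2⟩ := hM.image_mem hy (f := fun b => pair a b)
      (hB.pair' (DfnF.const ha) (DfnF.proj 0))
    have h3 : z = im (fun b => pair a b) y := by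
      ext w
      rw [h2, mem_im]
    exact h3 ▸ hz
  have hf : DfnF M M fun w : Fin 1 → ZFSet.{0} => im (fun b => pair (w 0) b) y := by
    refine DfnF.of_unique (R := fun s v => (∀ z ∈ s, ∃ b ∈ y, z = pair (v 0) b) ∧
      ∀ b ∈ y, pair (v 0) b ∈ s) ?_ ?_
    · apply Dfn.and
      · apply hB.ball (DfnF.proj 0)
        apply hB.bex (DfnF.const hy)
        exact Dfn.eq (DfnF.proj 1) (hB.pair' (DfnF.proj 3) (DfnF.proj 0))
      · apply hB.ball (DfnF.const hy)
        exact Dfn.mem (hB.pair' (DfnF.proj 2) (DfnF.proj 0)) (DfnF.proj 1)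
    · intro v hv
      refine ⟨hmem _ (hv 0), fun s _ => ?_⟩
      constructor
      · rintro ⟨h2, h3⟩
        ext z
        rw [mem_im]
        constructor
        · exact h2 z
        · rintro ⟨b, hb, rfl⟩
          exact h3 b hb
      · rintro rfl
        exact ⟨fun z hz => mem_im.1 hz, fun b hb => mem_im.2 ⟨b, hb, rfl⟩⟩
  obtain ⟨z, hz, h2⟩ := hM.image_mem hx (f := fun a => im (fun b => pair a b) y) hf
  have h3 : ZFSet.sUnion z = ZFSet.prod x y := by
    ext u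
    rw [ZFSet.mem_sUnion, ZFSet.mem_prod]
    constructor
    · rintro ⟨s, hs, hu⟩
      obtain ⟨a, ha, rfl⟩ := (h2 s).1 hs
      obtain ⟨b, hb, rfl⟩ := mem_im.1 hu
      exact ⟨a, ha, b, hb, rfl⟩
    · rintro ⟨a, ha, b, hb, rfl⟩
      exact ⟨_, (h2 _).2 ⟨a, ha, rfl⟩, mem_im.2 ⟨b, hb, rfl⟩⟩
  exact h3 ▸ hM.union _ hz

/-- Separation for sets of pairs. -/
theorem rel_mem {x y : ZFSet.{0}} (hx : x ∈ M) (hy : y ∈ M) {Q : ZFSet.{0} → ZFSet.{0} → Prop}
    (h : Dfn M M fun w : Fin 2 → ZFSet.{0} => Q (w 0) (w 1)) :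
    ∃ f ∈ M, f ⊆ ZFSet.prod x y ∧ ∀ a b, pair a b ∈ f ↔ a ∈ x ∧ b ∈ y ∧ Q a b := by
  have hB := hM.base
  have h1 : Dfn M M fun w : Fin 1 → ZFSet.{0} => ∃ a ∈ x, ∃ b ∈ y, w 0 = pair a b ∧ Q a b := by
    apply hB.bex
    · (repeat' first
      | assumption
      | exact DfnF.proj _
      | exact DfnF.const (by assumption)
      | exact DfnF.const' (by first | assumption | trivial) (by first | assumption | trivial)
      | exact Dfn.prop _
      | apply Dfn.not | apply Dfn.and | apply Dfn.or | apply Dfn.imp | apply Dfn.iff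
      | apply hB.bex | apply hB.ball | apply Dfn.ex | apply Dfn.all
      | apply Dfn.eq | apply Dfn.mem | apply hB.pair')
    apply hB.bex
    · (repeat' first
      | assumption
      | exact DfnF.proj _
      | exact DfnF.const (by assumption)
      | exact DfnF.const' (by first | assumption | trivial) (by first | assumption | trivial)
      | exact Dfn.prop _
      | apply Dfn.not | apply Dfn.and | apply Dfn.or | apply Dfn.imp | apply Dfn.iff
      | apply hB.bex | apply hB.ball | apply Dfn.ex | apply Dfn.all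
      | apply Dfn.eq | apply Dfn.mem | apply hB.pair')
    apply Dfn.and
    · (repeat' first
      | assumption
      | exact DfnF.proj _
      | exact DfnF.const (by assumption)
      | exact DfnF.const' (by first | assumption | trivial) (by first | assumption | trivial)
      | exact Dfn.prop _
      | apply Dfn.not | apply Dfn.and | apply Dfn.or | apply Dfn.imp | apply Dfn.iff
      | apply hB.bex | apply hB.ball | apply Dfn.ex | apply Dfn.all
      | apply Dfn.eq | apply Dfn.mem | apply hB.pair')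
    · exact Dfn.comp2 (Q := Q) h (DfnF.proj 1) (DfnF.proj 0)
  refine ⟨_, hM.sep_mem (Q := fun z => ∃ a ∈ x, ∃ b ∈ y, z = pair a b ∧ Q a b) h1
    (hM.prod_mem hx hy), fun z hz => (ZFSet.mem_sep.1 hz).1, fun a b => ?_⟩
  rw [ZFSet.mem_sep, ZFSet.pair_mem_prod]
  constructor
  · rintro ⟨-, a', ha, b', hb, h2, h3⟩
    obtain ⟨rfl, rfl⟩ := ZFSet.pair_inj.1 h2
    exact ⟨ha, hb, h3⟩
  · rintro ⟨ha, hb, h3⟩
    exact ⟨⟨ha, hb⟩, a, ha, b, hb, rfl, h3⟩

end IsZFm

namespace IsZFm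

variable {M : Set ZFSet.{0}} (hM : IsZFm M) {n : ℕ}
  {F G : (Fin n → ZFSet.{0}) → ZFSet.{0}}

include hM

theorem im_mem {h : ZFSet.{0} → ZFSet.{0}} {x : ZFSet.{0}} (hx : x ∈ M)
    (hh : DfnF M M fun w : Fin 1 → ZFSet.{0} => h (w 0)) : im h x ∈ M := by
  obtain ⟨y, hy, h1⟩ := hM.image_mem hx hh
  have h2 : y = im h x := by
    ext z
    rw [h1, mem_im]
  exact h2 ▸ hy

theorem im' (hF : DfnF M M F) {h : ZFSet.{0} → (Fin n → ZFSet.{0}) → ZFSet.{0}}
    (hh : DfnF M M fun w : Fin (n + 1) → ZFSet.{0} => h (w 0) (Fin.tail w)) :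
    DfnF M M fun v => im (fun p => h p v) (F v) := by
  have hB := hM.base
  refine DfnF.of_unique (R := fun y v => (∀ z ∈ y, ∃ p ∈ F v, z = h p v) ∧
    ∀ p ∈ F v, ∃ z ∈ y, z = h p v) ?_ ?_
  · apply Dfn.and
    · apply hB.ball (DfnF.proj _)
      apply hB.bex hF.tail.tail
      refine Dfn.eq (DfnF.proj 1) ?_
      exact ⟨fun v hv => hh.1 (Fin.cons (v 0) (Fin.tail (Fin.tail (Fin.tail v)))) fun i => by
          refine Fin.cases ?_ (fun i => ?_) i
          · exact hv 0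
          · exact hv _,
        hh.2.comp (Fin.cons 0 (Fin.cons 1 fun i => i.succ.succ.succ.succ))⟩
    · apply hB.ball hF.tail
      apply hB.bex (DfnF.proj _)
      refine Dfn.eq (DfnF.proj 0) ?_
      exact ⟨fun v hv => hh.1 (Fin.cons (v 1) (Fin.tail (Fin.tail (Fin.tail v)))) fun i => by
          refine Fin.cases ?_ (fun i => ?_) i
          · exact hv 1
          · exact hv _,
        hh.2.comp (Fin.cons 0 (Fin.cons 2 fun i => i.succ.succ.succ.succ))⟩
  · intro v hv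
    refine ⟨hM.im_mem (hF.1 v hv) (hh.spec hv), fun y hy => ?_⟩
    constructor
    · rintro ⟨h1, h2⟩
      ext z
      rw [mem_im]
      constructor
      · exact h1 z
      · rintro ⟨p, hp, rfl⟩
        obtain ⟨z, hz, hz'⟩ := h2 p hp
        exact hz' ▸ hz
    · rintro rfl
      exact ⟨fun z hz => mem_im.1 hz, fun p hp => ⟨_, mem_im.2 ⟨p, hp, rfl⟩, rfl⟩⟩

theorem sep' (hF : DfnF M M F) {Q : ZFSet.{0} → (Fin n → ZFSet.{0}) → Prop}
    (hQ : Dfn M M fun w : Fin (n + 1) → ZFSet.{0} => Q (w 0) (Fin.tail w)) :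
    DfnF M M fun v => ZFSet.sep (fun p => Q p v) (F v) := by
  have hB := hM.base
  refine DfnF.of_unique (R := fun y v => (∀ z ∈ y, z ∈ F v ∧ Q z v) ∧
    ∀ z ∈ F v, Q z v → z ∈ y) ?_ ?_
  · apply Dfn.and
    · apply hB.ball (DfnF.proj _)
      exact (Dfn.mem (DfnF.proj _) hF.tail.tail).and
        (hQ.comp (Fin.cons 0 fun i => i.succ.succ))
    · apply hB.ball hF.tail
      apply Dfn.imp (hQ.comp (Fin.cons 0 fun i => i.succ.succ))
      exact Dfn.mem (DfnF.proj 0) (DfnF.proj 1)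
  · intro v hv
    refine ⟨hM.sep_mem (Q := fun p => Q p v) (hQ.spec hv) (hF.1 v hv), fun y hy => ?_⟩
    constructor
    · rintro ⟨h1, h2⟩
      ext z
      rw [ZFSet.mem_sep]
      exact ⟨h1 z, fun h => h2 z h.1 h.2⟩
    · rintro rfl
      exact ⟨fun z hz => ZFSet.mem_sep.1 hz, fun z h h' => ZFSet.mem_sep.2 ⟨h, h'⟩⟩

theorem prod' (hF : DfnF M M F) (hG : DfnF M M G) : DfnF M M fun v => ZFSet.prod (F v) (G v) := by
  have hB := hM.base
  refine DfnF.of_unique (R := fun y v => (∀ z ∈ y, ∃ a ∈ F v, ∃ b ∈ G v, z = pair a b) ∧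
    ∀ a ∈ F v, ∀ b ∈ G v, pair a b ∈ y) ?_ ?_
  · have h1 := hF.tail
    have h2 := hG.tail
    have h3 := h1.tail
    have h4 := h2.tail
    have h5 := h4.tail
    (repeat' first
      | assumption
      | exact DfnF.proj _
      | apply Dfn.and
      | apply hB.bex | apply hB.ball
      | apply Dfn.eq | apply Dfn.mem | apply hB.pair')
  · intro v hv
    refine ⟨hM.prod_mem (hF.1 v hv) (hG.1 v hv), fun y hy => ?_⟩
    constructor
    · rintro ⟨h1, h2⟩
      ext z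
      rw [ZFSet.mem_prod]
      constructor
      · exact h1 z
      · rintro ⟨a, ha, b, hb, rfl⟩
        exact h2 a ha b hb
    · rintro rfl
      exact ⟨fun z hz => ZFSet.mem_prod.1 hz, fun a ha b hb => ZFSet.pair_mem_prod.2 ⟨ha, hb⟩⟩

theorem fs' (hF : DfnF M M F) : DfnF M M fun v => fs (F v) := by
  have hB := hM.base
  refine DfnF.comp1 (f := fs) ?_ hF
  refine DfnF.of_unique (R := fun y v => (∃ b ∈ M, v 0 = pair y b) ∨
    (y = ∅ ∧ ¬ ∃ a ∈ M, ∃ b ∈ M, v 0 = pair a b)) ?_ ?_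
  · have h0 := hM.empty_mem
    (repeat' first
      | assumption
      | exact DfnF.proj _
      | exact DfnF.const (by assumption)
      | exact DfnF.const' (by first | assumption | trivial) (by first | assumption | trivial)
      | exact Dfn.prop _
      | apply Dfn.not | apply Dfn.and | apply Dfn.or | apply Dfn.imp | apply Dfn.iff
      | apply hB.bex | apply hB.ball | apply Dfn.ex | apply Dfn.all
      | apply Dfn.eq | apply Dfn.mem | apply hB.pair')
  · intro v hv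
    by_cases h : ∃ a b, v 0 = pair a b
    · obtain ⟨a, b, h1⟩ := h
      have h2 := hM.of_pair_mem (h1 ▸ hv 0)
      rw [h1, fs_pair]
      refine ⟨h2.1, fun y _ => ?_⟩
      constructor
      · rintro (⟨b', -, h3⟩ | ⟨-, h3⟩)
        · exact (ZFSet.pair_inj.1 h3).1.symm
        · exact absurd ⟨a, h2.1, b, h2.2, rfl⟩ h3
      · rintro rfl
        exact Or.inl ⟨b, h2.2, rfl⟩
    · rw [fs, dif_neg h]
      refine ⟨hM.empty_mem, fun y _ => ?_⟩
      constructor
      · rintro (⟨b', -, h3⟩ | ⟨h3, -⟩)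
        · exact absurd ⟨y, b', h3⟩ h
        · exact h3
      · rintro rfl
        exact Or.inr ⟨rfl, fun ⟨a, _, b, _, h3⟩ => h ⟨a, b, h3⟩⟩

theorem sn' (hF : DfnF M M F) : DfnF M M fun v => sn (F v) := by
  have hB := hM.base
  refine DfnF.comp1 (f := sn) ?_ hF
  refine DfnF.of_unique (R := fun y v => (∃ b ∈ M, v 0 = pair b y) ∨
    (y = ∅ ∧ ¬ ∃ a ∈ M, ∃ b ∈ M, v 0 = pair a b)) ?_ ?_
  · have h0 := hM.empty_mem
    (repeat' first
      | assumption
      | exact DfnF.proj _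
      | exact DfnF.const (by assumption)
      | exact DfnF.const' (by first | assumption | trivial) (by first | assumption | trivial)
      | exact Dfn.prop _
      | apply Dfn.not | apply Dfn.and | apply Dfn.or | apply Dfn.imp | apply Dfn.iff
      | apply hB.bex | apply hB.ball | apply Dfn.ex | apply Dfn.all
      | apply Dfn.eq | apply Dfn.mem | apply hB.pair')
  · intro v hv
    by_cases h : ∃ a b, v 0 = pair a b
    · obtain ⟨a, b, h1⟩ := h
      have h2 := hM.of_pair_mem (h1 ▸ hv 0)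
      rw [h1, sn_pair]
      refine ⟨h2.2, fun y _ => ?_⟩
      constructor
      · rintro (⟨b', -, h3⟩ | ⟨-, h3⟩)
        · exact (ZFSet.pair_inj.1 h3).2.symm
        · exact absurd ⟨a, h2.1, b, h2.2, rfl⟩ h3
      · rintro rfl
        exact Or.inl ⟨a, h2.1, rfl⟩
    · rw [sn, dif_neg h]
      refine ⟨hM.empty_mem, fun y _ => ?_⟩
      constructor
      · rintro (⟨b', -, h3⟩ | ⟨h3, -⟩)
        · exact absurd ⟨b', y, h3⟩ h
        · exact h3
      · rintro rfl
        exact Or.inr ⟨rfl, fun ⟨a, _, b, _, h3⟩ => h ⟨a, b, h3⟩⟩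

theorem fs_mem {x : ZFSet.{0}} (hx : x ∈ M) : fs x ∈ M :=
  (hM.fs' (DfnF.const hx)).1 Fin.elim0 fun i => i.elim0

theorem sn_mem {x : ZFSet.{0}} (hx : x ∈ M) : sn x ∈ M :=
  (hM.sn' (DfnF.const hx)).1 Fin.elim0 fun i => i.elim0

theorem lo' {Q : ZFSet.{0} → (Fin n → ZFSet.{0}) → Prop}
    (hQ : Dfn M M fun w : Fin (n + 1) → ZFSet.{0} => Q (w 0) (Fin.tail w)) :
    DfnF M M fun v => lo M fun ζ => Q ζ v := by
  have hB := hM.base
  have h0 := hM.empty_mem
  refine DfnF.of_unique (R := fun y v => (y.IsOrdinal ∧ Q y v ∧ ∀ ζ ∈ y, ¬ Q ζ v) ∨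
    (y = ∅ ∧ ¬ ∃ ζ ∈ M, ζ.IsOrdinal ∧ Q ζ v)) ?_ ?_
  · have h1 : Dfn M M fun w : Fin (n + 2) → ZFSet.{0} => Q (w 0) (Fin.tail (Fin.tail w)) :=
      hQ.comp (Fin.cons 0 fun i => i.succ.succ)
    apply Dfn.or
    · apply Dfn.and (hB.isOrdinal' (DfnF.proj 0))
      apply Dfn.and hQ
      exact hB.ball (DfnF.proj 0) h1.not
    · apply Dfn.and (Dfn.eq (DfnF.proj 0) (DfnF.const h0))
      apply Dfn.not
      apply Dfn.ex
      exact (hB.isOrdinal' (DfnF.proj 0)).and h1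
  · intro v hv
    by_cases h : ∃ ζ ∈ M, ζ.IsOrdinal ∧ Q ζ v
    · obtain ⟨h1, h2, h3⟩ := lo_spec h
      refine ⟨h1, fun y hy => ?_⟩
      constructor
      · rintro (⟨h4, h5, h6⟩ | ⟨-, h4⟩)
        · rcases h4.mem_trichotomous h2 with h7 | h7 | h7
          · exact absurd h7 (lo_min hy h4 h5)
          · exact h7
          · exact absurd h3 (h6 _ h7)
        · exact absurd h h4
      · rintro rfl
        exact Or.inl ⟨h2, h3, fun ζ hζ h4 => lo_min (hM.trans _ h1 _ hζ) (h2.mem hζ) h4 hζ⟩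
    · rw [lo_none h]
      refine ⟨h0, fun y hy => ?_⟩
      constructor
      · rintro (⟨h4, h5, h6⟩ | ⟨h4, -⟩)
        · exact absurd ⟨y, hy, h4, h5⟩ h
        · exact h4
      · rintro rfl
        exact Or.inr ⟨rfl, h⟩

end IsZFm

section recursion

variable {M : Set ZFSet.{0}} (hM : IsZFm M) {pr F : ZFSet.{0} → ZFSet.{0}}
  {G : ZFSet.{0} → ZFSet.{0} → ZFSet.{0}}

include hM

theorem dfn_approx (hpr : DfnF M M fun w : Fin 1 → ZFSet.{0} => pr (w 0))
    (hG : DfnF M M fun w : Fin 2 → ZFSet.{0} => G (w 0) (w 1)) :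
    Dfn M M fun w : Fin 1 → ZFSet.{0} => Approx M pr G (w 0) := by
  have hB := hM.base
  unfold Approx
  (repeat' first
      | assumption
      | exact DfnF.proj _
      | apply Dfn.not | apply Dfn.and | apply Dfn.or | apply Dfn.imp | apply Dfn.iff
      | apply hB.bex | apply hB.ball | apply Dfn.ex | apply Dfn.all
      | apply Dfn.eq | apply Dfn.mem | apply hB.pair'
      | exact DfnF.comp1 (f := pr) hpr (DfnF.proj _)
      | exact DfnF.comp2 (f := G) hG (DfnF.proj _) (DfnF.proj _))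

theorem rec_aux (hwf : WellFounded fun u z => u ∈ pr z)
    (hpr : DfnF M M fun w : Fin 1 → ZFSet.{0} => pr (w 0))
    (hG : DfnF M M fun w : Fin 2 → ZFSet.{0} => G (w 0) (w 1))
    (hF : ∀ z, F z = G z (gr F (pr z))) (z : ZFSet.{0}) (hz : z ∈ M) :
    rcl pr hwf F z ∈ M ∧ Approx M pr G (rcl pr hwf F z) := by
  have hB := hM.base
  induction z using hwf.induction with
  | _ z ih =>
  have hpz : pr z ∈ M := hpr.1 (fun _ => z) fun _ => hz
  have ih1 : ∀ u ∈ pr z, rcl pr hwf F u ∈ M ∧ Approx M pr G (rcl pr hwf F u) := fun u hu =>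
    ih u hu (hM.trans _ hpz _ hu)
  -- the family of these sets is in M
  have hd : Dfn M M fun w : Fin 2 → ZFSet.{0} => Approx M pr G (w 1) ∧
      (∃ y ∈ M, pair (w 0) y ∈ w 1) ∧ ∀ k ∈ M, Approx M pr G k → (∃ y ∈ M, pair (w 0) y ∈ k) →
        w 1 ⊆ k := by
    have ha := dfn_approx hM hpr hG
    apply Dfn.and
    · exact Dfn.comp1 (Q := Approx M pr G) ha (DfnF.proj 1)
    apply Dfn.and
    · (repeat' first
      | exact DfnF.proj _
      | apply Dfn.ex
      | apply Dfn.mem | apply hB.pair')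
    apply Dfn.all
    apply Dfn.imp
    · exact Dfn.comp1 (Q := Approx M pr G) ha (DfnF.proj 0)
    (repeat' first
      | exact DfnF.proj _
      | apply Dfn.imp
      | apply Dfn.ex | apply hB.subset'
      | apply Dfn.mem | apply hB.pair')
  obtain ⟨φ, hφ, hφ'⟩ := hd
  have key : ∀ u ∈ pr z, ∀ w ∈ M, Sat M id φ ![u, w] ↔ w = rcl pr hwf F u := by
    intro u hu w hw
    have huM := hM.trans _ hpz _ hu
    rw [hφ' ![u, w] (by intro i; fin_cases i; exacts [huM, hw])]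
    obtain ⟨h1, h2⟩ := ih1 u hu
    have hFu : ∃ y ∈ M, pair u y ∈ rcl pr hwf F u :=
      ⟨F u, (hM.of_pair_mem (hM.trans _ h1 _ (rcl_self u))).2, rcl_self u⟩
    constructor
    · rintro ⟨h3, ⟨y, -, h4⟩, h5⟩
      apply ZFSet.ext
      intro p
      exact ⟨fun hp => h5 _ h1 h2 hFu hp, fun hp => rcl_min hwf hF h3 u ⟨y, h4⟩ hp⟩
    · rintro rfl
      exact ⟨h2, hFu, fun k _ hk ⟨y, _, hy⟩ => rcl_min hwf hF hk u ⟨y, hy⟩⟩
  obtain ⟨S, hS, hS'⟩ := hM.replacement φ hφ _ hpz (by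
    intro u hu
    exact ⟨rcl pr hwf F u, ⟨(ih1 u hu).1, (key u hu _ (ih1 u hu).1).2 rfl⟩,
      fun w hw => (key u hu w hw.1).1 hw.2⟩)
  have hS1 : S = im (rcl pr hwf F) (pr z) := by
    ext w
    rw [hS', mem_im]
    constructor
    · rintro ⟨hw, u, hu, h⟩
      exact ⟨u, hu, (key u hu w hw).1 h⟩
    · rintro ⟨u, hu, rfl⟩
      exact ⟨(ih1 u hu).1, u, hu, (key u hu _ (ih1 u hu).1).2 rfl⟩
  have hU : ZFSet.sUnion S ∈ M := hM.union _ hS
  have hd2 : Dfn M M fun w : Fin 1 → ZFSet.{0} => ∃ u ∈ pr z, ∃ y ∈ M, w 0 = pair u y := by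
    have h1 := hpz
    (repeat' first
      | assumption
      | exact DfnF.proj _
      | exact DfnF.const (by assumption)
      | exact DfnF.const' (by first | assumption | trivial) (by first | assumption | trivial)
      | exact Dfn.prop _
      | apply Dfn.not | apply Dfn.and | apply Dfn.or | apply Dfn.imp | apply Dfn.iff
      | apply hB.bex | apply hB.ball | apply Dfn.ex | apply Dfn.all
      | apply Dfn.eq | apply Dfn.mem | apply hB.pair')
  have hgr : gr F (pr z) ∈ M := by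
    have h1 := hM.sep_mem (Q := fun p => ∃ u ∈ pr z, ∃ y ∈ M, p = pair u y) hd2 hU
    have h2 : ZFSet.sep (fun p => ∃ u ∈ pr z, ∃ y ∈ M, p = pair u y) (ZFSet.sUnion S) =
        gr F (pr z) := by
      ext p
      rw [ZFSet.mem_sep, mem_gr, ZFSet.mem_sUnion]
      constructor
      · rintro ⟨⟨w, hw, hp⟩, u, hu, y, -, rfl⟩
        rw [hS1, mem_im] at hw
        obtain ⟨u', hu', rfl⟩ := hw
        obtain ⟨u'', h3⟩ := rcl_form hwf _ _ hp
        obtain ⟨rfl, rfl⟩ := ZFSet.pair_inj.1 h3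
        exact ⟨u, hu, rfl⟩
      · rintro ⟨u, hu, rfl⟩
        have h3 := (hM.of_pair_mem (hM.trans _ (ih1 u hu).1 _ (rcl_self u))).2
        exact ⟨⟨rcl pr hwf F u, hS1 ▸ mem_im.2 ⟨u, hu, rfl⟩, rcl_self u⟩, u, hu, F u, h3, rfl⟩
    exact h2 ▸ h1
  have hFz : F z ∈ M := by
    rw [hF]
    exact hG.1 ![z, gr F (pr z)] (by intro i; fin_cases i; exacts [hz, hgr])
  have hcl : rcl pr hwf F z ∈ M := by
    rw [rcl_eq, ← hS1]
    exact hM.insert_mem (hM.pair_mem hz hFz) hU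
  refine ⟨hcl, fun p hp => ?_⟩
  rcases mem_rcl.1 hp with rfl | ⟨u, hu, hp'⟩
  · refine ⟨z, hz, F z, hFz, rfl, gr F (pr z), hgr, ?_, ?_, hF z⟩
    · intro q hq
      obtain ⟨u, hu, rfl⟩ := mem_gr.1 hq
      have h3 := (hM.of_pair_mem (hM.trans _ (ih1 u hu).1 _ (rcl_self u))).2
      exact ⟨mem_rcl.2 (Or.inr ⟨u, hu, rcl_self u⟩), u, hu, F u, h3, rfl⟩
    · intro u hu
      have h3 := (hM.of_pair_mem (hM.trans _ (ih1 u hu).1 _ (rcl_self u))).2
      exact ⟨F u, h3, mem_gr.2 ⟨u, hu, rfl⟩⟩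
  · obtain ⟨u', hu', y', hy', h1, g, hg, h2, h3⟩ := (ih1 u hu).2 p hp'
    exact ⟨u', hu', y', hy', h1, g, hg, fun q hq =>
      ⟨mem_rcl.2 (Or.inr ⟨u, hu, (h2 q hq).1⟩), (h2 q hq).2⟩, h3⟩

/-- The recursion theorem. -/
theorem IsZFm.wfrec (hwf : WellFounded fun u z => u ∈ pr z)
    (hpr : DfnF M M fun w : Fin 1 → ZFSet.{0} => pr (w 0))
    (hG : DfnF M M fun w : Fin 2 → ZFSet.{0} => G (w 0) (w 1))
    (hF : ∀ z, F z = G z (gr F (pr z))) : DfnF M M fun w : Fin 1 → ZFSet.{0} => F (w 0) := by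
  have hB := hM.base
  have ha := dfn_approx hM hpr hG
  refine DfnF.of_unique (R := fun y v => ∃ k ∈ M, Approx M pr G k ∧ pair (v 0) y ∈ k) ?_ ?_
  · apply Dfn.ex
    apply Dfn.and
    · exact Dfn.comp1 (Q := Approx M pr G) ha (DfnF.proj 0)
    · (repeat' first
      | exact DfnF.proj _
      | apply Dfn.mem | apply hB.pair')
  · intro v hv
    obtain ⟨h1, h2⟩ := rec_aux hM hwf hpr hG hF (v 0) (hv 0)
    refine ⟨(hM.of_pair_mem (hM.trans _ h1 _ (rcl_self _))).2, fun y _ => ?_⟩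
    constructor
    · rintro ⟨k, -, h3, h4⟩
      exact (approx_eq hwf hF h3 _ _ h4).1
    · rintro rfl
      exact ⟨_, h1, h2, rcl_self _⟩

/-- Recursion along the membership relation. -/
theorem IsZFm.memrec (hG : DfnF M M fun w : Fin 2 → ZFSet.{0} => G (w 0) (w 1))
    (hF : ∀ z, F z = G z (gr F z)) : DfnF M M fun w : Fin 1 → ZFSet.{0} => F (w 0) :=
  hM.wfrec (pr := fun z => z) ZFSet.mem_wf (DfnF.proj 0) hG hF

end recursion

end Q207.CM
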