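import Pool.Agent.Q207.CM.Base

/-!
# The conditions of Friedman's forcing
-/

set_option autoImplicit false

namespace Q207.CM

open ZFSet (pair)
open Q207.CF (Ty ty ty_zero ty_succ finite_Ty ty_sat IsName val mem_val Ext IsFilter IsDense IsDefinable
  IsGeneric Forces TruthLemma FCond FLe)
open Pool.Agent.W868 (Fml Sat nat nat_injective mem_omega_iff)

theorem mem_nat {n : ℕ} {x : ZFSet.{0}} : x ∈ nat n ↔ ∃ i < n, x = nat i := by
  induction n with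
  | zero => simp [nat]
  | succ n ih =>
    rw [nat, ZFSet.mem_insert_iff, ih]
    constructor
    · rintro (rfl | ⟨i, hi, rfl⟩)
      · exact ⟨n, by omega, rfl⟩
      · exact ⟨i, by omega, rfl⟩
    · rintro ⟨i, hi, rfl⟩
      rcases Nat.lt_succ_iff_lt_or_eq.1 hi with h | rfl
      · exact Or.inr ⟨i, h, rfl⟩
      · exact Or.inl rfl

theorem nat_mem_nat {i n : ℕ} : nat i ∈ nat n ↔ i < n := by
  rw [mem_nat]
  constructor
  · rintro ⟨j, hj, h⟩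
    rwa [nat_injective h]
  · intro h
    exact ⟨i, h, rfl⟩

/-- The set of the pairs `(i, f i)` for `i < n`. -/
noncomputable def Fn (f : ℕ → ZFSet.{0}) : ℕ → ZFSet.{0}
  | 0 => ∅
  | n + 1 => insert (pair (nat n) (f n)) (Fn f n)

theorem mem_Fn {f : ℕ → ZFSet.{0}} {n : ℕ} {x : ZFSet.{0}} :
    x ∈ Fn f n ↔ ∃ i < n, x = pair (nat i) (f i) := by
  induction n with
  | zero => simp [Fn]
  | succ n ih =>
    rw [Fn, ZFSet.mem_insert_iff, ih]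
    constructor
    · rintro (rfl | ⟨i, hi, rfl⟩)
      · exact ⟨n, by omega, rfl⟩
      · exact ⟨i, by omega, rfl⟩
    · rintro ⟨i, hi, rfl⟩
      rcases Nat.lt_succ_iff_lt_or_eq.1 hi with h | rfl
      · exact Or.inr ⟨i, h, rfl⟩
      · exact Or.inl rfl

theorem pair_mem_Fn {f : ℕ → ZFSet.{0}} {n i : ℕ} {y : ZFSet.{0}} :
    pair (nat i) y ∈ Fn f n ↔ i < n ∧ y = f i := by
  rw [mem_Fn]
  constructor
  · rintro ⟨j, hj, h⟩
    obtain ⟨h1, h2⟩ := ZFSet.pair_inj.1 h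
    have h3 := nat_injective h1
    subst h3
    exact ⟨hj, h2⟩
  · rintro ⟨hi, rfl⟩
    exact ⟨i, hi, rfl⟩

/-- The set of the pairs `(i, j)` for `i, j < n` such that `f i ∈ f j`. -/
noncomputable def En (f : ℕ → ZFSet.{0}) (n : ℕ) : ZFSet.{0} :=
  ZFSet.sep (fun x => ∃ i j, x = pair (nat i) (nat j) ∧ f i ∈ f j) (ZFSet.prod (nat n) (nat n))

theorem pair_mem_En {f : ℕ → ZFSet.{0}} {n i j : ℕ} :
    pair (nat i) (nat j) ∈ En f n ↔ i < n ∧ j < n ∧ f i ∈ f j := by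
  rw [En, ZFSet.mem_sep, ZFSet.pair_mem_prod, nat_mem_nat, nat_mem_nat]
  constructor
  · rintro ⟨⟨hi, hj⟩, i', j', h, h'⟩
    obtain ⟨h1, h2⟩ := ZFSet.pair_inj.1 h
    have h3 := nat_injective h1
    have h4 := nat_injective h2
    subst h3 h4
    exact ⟨hi, hj, h'⟩
  · rintro ⟨hi, hj, h⟩
    exact ⟨⟨hi, hj⟩, i, j, rfl, h⟩

theorem mem_En {f : ℕ → ZFSet.{0}} {n : ℕ} {x : ZFSet.{0}} (hx : x ∈ En f n) :
    ∃ i j, x = pair (nat i) (nat j) ∧ i < n ∧ j < n ∧ f i ∈ f j := by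
  have h := hx
  rw [En, ZFSet.mem_sep] at h
  obtain ⟨-, i, j, rfl, -⟩ := h
  exact ⟨i, j, rfl, pair_mem_En.1 hx⟩

/-- The condition given by the values `f i` for `i < n`. -/
noncomputable def cd (f : ℕ → ZFSet.{0}) (n : ℕ) : ZFSet.{0} :=
  pair (nat n) (pair (En f n) (Fn f n))

/-! ### Ranks -/

theorem rank_pair_left (a b : ZFSet.{0}) : a.rank < (pair a b).rank := by
  have h1 : ({a} : ZFSet.{0}) ∈ pair a b := by simp [pair]
  exact (ZFSet.rank_lt_of_mem (ZFSet.mem_singleton.2 rfl)).trans (ZFSet.rank_lt_of_mem h1)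

theorem rank_pair_right (a b : ZFSet.{0}) : b.rank < (pair a b).rank := by
  have h1 : ({a, b} : ZFSet.{0}) ∈ pair a b := by simp [pair]
  exact (ZFSet.rank_lt_of_mem (ZFSet.mem_pair.2 (Or.inr rfl))).trans (ZFSet.rank_lt_of_mem h1)

theorem rank_value {d e f i y : ZFSet.{0}} (h : pair i y ∈ f) :
    y.rank < (pair d (pair e f)).rank :=
  (rank_pair_right i y).trans ((ZFSet.rank_lt_of_mem h).trans
    ((rank_pair_right e f).trans (rank_pair_right d _)))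

theorem rank_cd {f : ℕ → ZFSet.{0}} {n i : ℕ} (h : i < n) : (f i).rank < (cd f n).rank :=
  rank_value (pair_mem_Fn.2 ⟨h, rfl⟩)

/-! ### Finite sets -/

theorem finite_mem {M : Set ZFSet.{0}} (hM : IsZFm M) {s : ZFSet.{0}} (h : {x | x ∈ s}.Finite)
    (h' : ∀ x ∈ s, x ∈ M) : s ∈ M := by
  have key : ∀ t : Set ZFSet.{0}, t.Finite → t ⊆ M → ∃ z ∈ M, ∀ x, x ∈ z ↔ x ∈ t := by
    intro t ht
    induction t, ht using Set.Finite.induction_on with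
    | empty => exact fun _ => ⟨∅, hM.empty_mem, fun x => by simp⟩
    | insert _ _ ih =>
      intro h1
      obtain ⟨z, hz, h2⟩ := ih fun x hx => h1 (Set.mem_insert_of_mem _ hx)
      refine ⟨_, hM.insert_mem (h1 (Set.mem_insert _ _)) hz, fun x => ?_⟩
      rw [ZFSet.mem_insert_iff, h2, Set.mem_insert_iff]
  obtain ⟨z, hz, h1⟩ := key {x | x ∈ s} h fun x hx => h' x hx
  have h2 : z = s := by
    ext x
    exact h1 x
  exact h2 ▸ hz

theorem finite_nat (n : ℕ) : {x | x ∈ nat n}.Finite := by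
  refine ((Set.finite_lt_nat n).image nat).subset ?_
  intro x hx
  obtain ⟨i, hi, rfl⟩ := mem_nat.1 hx
  exact ⟨i, hi, rfl⟩

theorem finite_Fn (f : ℕ → ZFSet.{0}) (n : ℕ) : {x | x ∈ Fn f n}.Finite := by
  refine ((Set.finite_lt_nat n).image fun i => pair (nat i) (f i)).subset ?_
  intro x hx
  obtain ⟨i, hi, rfl⟩ := mem_Fn.1 hx
  exact ⟨i, hi, rfl⟩

theorem finite_En (f : ℕ → ZFSet.{0}) (n : ℕ) : {x | x ∈ En f n}.Finite := by
  refine (((Set.finite_lt_nat n).prod (Set.finite_lt_nat n)).image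
    fun p => pair (nat p.1) (nat p.2)).subset ?_
  intro x hx
  obtain ⟨i, j, rfl, hi, hj, -⟩ := mem_En hx
  exact ⟨(i, j), ⟨hi, hj⟩, rfl⟩

theorem cd_mem {M : Set ZFSet.{0}} (hM : IsZFm M) {f : ℕ → ZFSet.{0}} {n : ℕ}
    (hf : ∀ i < n, f i ∈ M) : cd f n ∈ M := by
  have hn : ∀ i, nat i ∈ M := fun i => hM.nat_mem i
  refine hM.pair_mem (hn n) (hM.pair_mem (finite_mem hM (finite_En f n) ?_)
    (finite_mem hM (finite_Fn f n) ?_))
  · intro x hx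
    obtain ⟨i, j, rfl, -⟩ := mem_En hx
    exact hM.pair_mem (hn i) (hn j)
  · intro x hx
    obtain ⟨i, hi, rfl⟩ := mem_Fn.1 hx
    exact hM.pair_mem (hn i) (hf i hi)

/-! ### Conditions -/

theorem acyclic_of_rank {e : ZFSet.{0}} {α : Type*} [Preorder α] (r : ZFSet.{0} → α)
    (h : ∀ a b, pair a b ∈ e → r a < r b) (i : ZFSet.{0}) :
    ¬ Relation.TransGen (fun a b => pair a b ∈ e) i i := by
  intro h1
  have h2 : ∀ a b, Relation.TransGen (fun a b => pair a b ∈ e) a b → r a < r b := by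
    intro a b hab
    induction hab with
    | single h3 => exact h _ _ h3
    | tail _ h3 ih => exact ih.trans (h _ _ h3)
  exact lt_irrefl _ (h2 i i h1)

theorem fcond_cd {M : Set ZFSet.{0}} {f : ℕ → ZFSet.{0}} {n : ℕ}
    (hf : ∀ i < n, f i ∈ M) (hi : ∀ i < n, ∀ j < n, f i = f j → i = j) : FCond M (cd f n) := by
  refine ⟨_, _, _, rfl, ⟨fun x hx => ?_, finite_nat n⟩, ⟨fun x hx => ?_, ?_⟩,
    ⟨fun x hx => ?_, ?_, ?_, Or.inr ?_⟩, ?_⟩
  · obtain ⟨i, -, rfl⟩ := mem_nat.1 hx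
    exact Pool.Agent.W868.nat_mem_omega i
  · obtain ⟨i, j, rfl, hi, hj, -⟩ := mem_En hx
    exact ⟨_, nat_mem_nat.2 hi, _, nat_mem_nat.2 hj, rfl⟩
  · refine acyclic_of_rank (fun x => (f (Function.invFun nat x)).rank) ?_
    intro a b hab
    obtain ⟨i, j, h, -, -, h1⟩ := mem_En hab
    obtain ⟨rfl, rfl⟩ := ZFSet.pair_inj.1 h
    simp only [Function.leftInverse_invFun nat_injective _]
    exact ZFSet.rank_lt_of_mem h1
  · obtain ⟨i, hi, rfl⟩ := mem_Fn.1 hx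
    exact ⟨_, nat_mem_nat.2 hi, _, hf i hi, rfl⟩
  · intro i y z h1 h2
    obtain ⟨j, -, h3⟩ := mem_Fn.1 h1
    obtain ⟨rfl, rfl⟩ := ZFSet.pair_inj.1 h3
    exact (pair_mem_Fn.1 h2).2.symm
  · intro i j y h1 h2
    obtain ⟨a, ha, h3⟩ := mem_Fn.1 h1
    obtain ⟨b, hb, h4⟩ := mem_Fn.1 h2
    obtain ⟨rfl, rfl⟩ := ZFSet.pair_inj.1 h3
    obtain ⟨rfl, h5⟩ := ZFSet.pair_inj.1 h4
    rw [hi a ha b hb h5]
  · intro i hi
    obtain ⟨j, hj, rfl⟩ := mem_nat.1 hi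
    exact ⟨f j, pair_mem_Fn.2 ⟨hj, rfl⟩⟩
  · intro _ i hi j hj y z h1 h2
    obtain ⟨i, hi', rfl⟩ := mem_nat.1 hi
    obtain ⟨j, hj', rfl⟩ := mem_nat.1 hj
    rw [(pair_mem_Fn.1 h1).2, (pair_mem_Fn.1 h2).2, pair_mem_En]
    exact ⟨fun h => h.2.2, fun h => ⟨hi', hj', h⟩⟩

theorem fle_trans {p q r : ZFSet.{0}} (h : FLe p q) (h' : FLe q r) : FLe p r := by
  obtain ⟨d, e, f, d', e', f', rfl, rfl, h1, h2, h3⟩ := h
  obtain ⟨d1, e1, f1, d2, e2, f2, h4, rfl, h5, h6, h7⟩ := h'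
  obtain ⟨rfl, h8⟩ := ZFSet.pair_inj.1 h4
  obtain ⟨rfl, rfl⟩ := ZFSet.pair_inj.1 h8
  exact ⟨_, _, _, _, _, _, rfl, rfl, fun x hx => h1 (h5 hx),
    fun i hi j hj => (h2 i (h5 hi) j (h5 hj)).trans (h6 i hi j hj), fun x hx => h3 (h7 hx)⟩

theorem fle_refl {M : Set ZFSet.{0}} {p : ZFSet.{0}} (h : FCond M p) : FLe p p := by
  obtain ⟨d, e, f, rfl, -⟩ := h
  exact ⟨_, _, _, _, _, _, rfl, rfl, fun x hx => hx, fun _ _ _ _ => Iff.rfl, fun x hx => hx⟩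

theorem fle_cd {f g : ℕ → ZFSet.{0}} {m n : ℕ} (hmn : m ≤ n) (h : ∀ i < m, g i = f i) :
    FLe (cd g n) (cd f m) := by
  refine ⟨_, _, _, _, _, _, rfl, rfl, fun x hx => ?_, fun i hi j hj => ?_, fun x hx => ?_⟩
  · obtain ⟨i, hi, rfl⟩ := mem_nat.1 hx
    exact nat_mem_nat.2 (by omega)
  · obtain ⟨i, hi', rfl⟩ := mem_nat.1 hi
    obtain ⟨j, hj', rfl⟩ := mem_nat.1 hj
    rw [pair_mem_En, pair_mem_En, h i hi', h j hj']
    constructor
    · rintro ⟨-, -, h⟩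
      exact ⟨hi', hj', h⟩
    · rintro ⟨-, -, h⟩
      exact ⟨by omega, by omega, h⟩
  · obtain ⟨i, hi, rfl⟩ := mem_Fn.1 hx
    exact pair_mem_Fn.2 ⟨by omega, (h i hi).symm⟩

/-- A condition whose function extends `f 0, ..., f (n - 1)`. -/
theorem fle_of_sub {M : Set ZFSet.{0}} {d e r : ZFSet.{0}} (hq : FCond M (pair d (pair e r)))
    {f : ℕ → ZFSet.{0}} {n : ℕ} (hn : 1 ≤ n) (h : Fn f n ⊆ r) :
    FLe (pair d (pair e r)) (cd f n) := by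
  obtain ⟨d', e', r', h0, -, -, ⟨h1, h2, h3, h4⟩, h5⟩ := hq
  obtain ⟨rfl, h8⟩ := ZFSet.pair_inj.1 h0
  obtain ⟨rfl, rfl⟩ := ZFSet.pair_inj.1 h8
  have hm : ∀ i < n, pair (nat i) (f i) ∈ r := fun i hi => h (pair_mem_Fn.2 ⟨hi, rfl⟩)
  have hr : ∀ i ∈ d, ∃ y, pair i y ∈ r := by
    rcases h4 with rfl | h4
    · exact absurd (hm 0 hn) (ZFSet.notMem_empty _)
    · exact h4
  have hd : ∀ i < n, nat i ∈ d := by
    intro i hi
    obtain ⟨j, hj, y, -, h6⟩ := h1 _ (hm i hi)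
    rwa [(ZFSet.pair_inj.1 h6).1]
  refine ⟨_, _, _, _, _, _, rfl, rfl, fun x hx => ?_, fun i hi j hj => ?_, h⟩
  · obtain ⟨i, hi, rfl⟩ := mem_nat.1 hx
    exact hd i hi
  · obtain ⟨i, hi', rfl⟩ := mem_nat.1 hi
    obtain ⟨j, hj', rfl⟩ := mem_nat.1 hj
    rw [h5 hr _ (hd i hi') _ (hd j hj') _ _ (hm i hi') (hm j hj'), pair_mem_En]
    exact ⟨fun h => ⟨hi', hj', h⟩, fun h => h.2.2⟩

theorem fn_sub_of_fle {d e r : ZFSet.{0}} {f : ℕ → ZFSet.{0}} {n : ℕ}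
    (h : FLe (pair d (pair e r)) (cd f n)) : Fn f n ⊆ r := by
  obtain ⟨d', e', r', d1, e1, r1, h0, h1, -, -, h2⟩ := h
  obtain ⟨rfl, h8⟩ := ZFSet.pair_inj.1 h0
  obtain ⟨rfl, rfl⟩ := ZFSet.pair_inj.1 h8
  obtain ⟨rfl, h8⟩ := ZFSet.pair_inj.1 h1
  obtain ⟨rfl, rfl⟩ := ZFSet.pair_inj.1 h8
  exact h2

/-- The gaps of a condition can be filled by sets of large rank. -/
theorem fill {M : Set ZFSet.{0}} (hM : IsZFm M) {d e r : ZFSet.{0}}
    (hq : FCond M (pair d (pair e r))) (hqM : pair d (pair e r) ∈ M)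
    {f : ℕ → ZFSet.{0}} {n : ℕ} (hn : 1 ≤ n) (h : Fn f n ⊆ r) :
    ∃ (m : ℕ) (g : ℕ → ZFSet.{0}), n ≤ m ∧ (∀ i < n, g i = f i) ∧ (∀ i < m, g i ∈ M) ∧
      (∀ i < m, ∀ j < m, g i = g j → i = j) ∧ FLe (cd g m) (pair d (pair e r)) ∧
      ∀ i < m, pair (nat i) (g i) ∈ r ∨ g i = {pair (pair d (pair e r)) (nat i)} := by
  classical
  have hq0 := hq
  obtain ⟨d', e', r', h0, ⟨hdω, hdf⟩, ⟨he, -⟩, ⟨h1, h2, h3, h4⟩, h5⟩ := hq
  obtain ⟨rfl, h8⟩ := ZFSet.pair_inj.1 h0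
  obtain ⟨rfl, rfl⟩ := ZFSet.pair_inj.1 h8
  set q := pair d (pair e r) with hqdef
  have hm : ∀ i < n, pair (nat i) (f i) ∈ r := fun i hi => h (pair_mem_Fn.2 ⟨hi, rfl⟩)
  have hr : ∀ i ∈ d, ∃ y, pair i y ∈ r := by
    rcases h4 with rfl | h4
    · exact absurd (hm 0 hn) (ZFSet.notMem_empty _)
    · exact h4
  obtain ⟨m, hm1, hm2⟩ : ∃ m, n ≤ m ∧ ∀ i, nat i ∈ d → i < m := by
    have h6 : {i : ℕ | nat i ∈ d}.Finite :=
      hdf.preimage (fun a _ b _ hab => nat_injective hab)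
    obtain ⟨b, hb⟩ := h6.bddAbove
    exact ⟨max n (b + 1), le_max_left _ _, fun i hi => by
      have := hb (show i ∈ {i : ℕ | nat i ∈ d} from hi)
      omega⟩
  let g : ℕ → ZFSet.{0} := fun i =>
    if h : ∃ y, pair (nat i) y ∈ r then h.choose else {pair q (nat i)}
  have hg1 : ∀ i y, pair (nat i) y ∈ r → g i = y := by
    intro i y hy
    have h6 : ∃ y, pair (nat i) y ∈ r := ⟨y, hy⟩
    simp only [g, dif_pos h6]
    exact h2 _ _ _ h6.choose_spec hy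
  have hg2 : ∀ i, pair (nat i) (g i) ∈ r ∨
      ((¬ ∃ y, pair (nat i) y ∈ r) ∧ g i = {pair q (nat i)}) := by
    intro i
    by_cases h6 : ∃ y, pair (nat i) y ∈ r
    · refine Or.inl ?_
      obtain ⟨y, hy⟩ := h6
      rw [hg1 i y hy]
      exact hy
    · exact Or.inr ⟨h6, by simp only [g, dif_neg h6]⟩
  have hrank : ∀ i y j, pair i y ∈ r → y ≠ {pair q (nat j)} := by
    rintro i y j hy rfl
    have h6 := rank_value (d := d) (e := e) hy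
    have h7 : (pair q (nat j)).rank < ({pair q (nat j)} : ZFSet.{0}).rank :=
      ZFSet.rank_lt_of_mem (ZFSet.mem_singleton.2 rfl)
    exact lt_irrefl _ (h6.trans ((rank_pair_left q (nat j)).trans h7))
  refine ⟨m, g, hm1, fun i hi => hg1 i _ (hm i hi), fun i _ => ?_, fun i _ j _ hij => ?_, ?_,
    fun i _ => (hg2 i).imp id fun h => h.2⟩
  · rcases hg2 i with h6 | ⟨-, h6⟩
    · obtain ⟨a, -, y, hy, h7⟩ := h1 _ h6
      rw [(ZFSet.pair_inj.1 h7).2]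
      exact hy
    · rw [h6]
      exact hM.single_mem (hM.pair_mem hqM (hM.nat_mem i))
  · rcases hg2 i with h6 | ⟨-, h6⟩ <;> rcases hg2 j with h7 | ⟨-, h7⟩
    · exact nat_injective (h3 _ _ _ h6 (hij ▸ h7))
    · exact absurd (hij.trans h7) (hrank _ _ _ h6)
    · exact absurd (hij.symm.trans h6) (hrank _ _ _ h7)
    · rw [h6, h7, ZFSet.singleton_inj] at hij
      exact nat_injective (ZFSet.pair_inj.1 hij).2
  · refine ⟨_, _, _, _, _, _, rfl, rfl, fun x hx => ?_, fun i hi j hj => ?_, fun x hx => ?_⟩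
    · obtain ⟨i, rfl⟩ := mem_omega_iff.1 (hdω hx)
      exact nat_mem_nat.2 (hm2 i hx)
    · obtain ⟨y, hy⟩ := hr i hi
      obtain ⟨z, hz⟩ := hr j hj
      rw [h5 hr _ hi _ hj _ _ hy hz]
      obtain ⟨i, rfl⟩ := mem_omega_iff.1 (hdω hi)
      obtain ⟨j, rfl⟩ := mem_omega_iff.1 (hdω hj)
      rw [pair_mem_En, hg1 i y hy, hg1 j z hz]
      exact ⟨fun h => h.2.2, fun h => ⟨hm2 i hi, hm2 j hj, h⟩⟩
    · obtain ⟨i, hi, y, -, rfl⟩ := h1 x hx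
      obtain ⟨i, rfl⟩ := mem_omega_iff.1 (hdω hi)
      exact pair_mem_Fn.2 ⟨hm2 i hi, (hg1 i y hx).symm⟩

end Q207.CM
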