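import Pool.Agent.Q207.CM.Rec

/-!
# The names are elements of the model
-/

set_option autoImplicit false

namespace Q207.CM

open ZFSet (pair)
open Q207.CF (Ty ty ty_zero ty_succ finite_Ty ty_sat IsName val mem_val Ext IsFilter IsDense IsDefinable
  IsGeneric Forces TruthLemma FCond FLe)
open Pool.Agent.W868 (Fml Sat Dfn DfnF nat fs sn im sc)

section

variable {M : Set ZFSet.{0}} (hM : IsZFm M) {n : ℕ} {F G H K L : (Fin n → ZFSet.{0}) → ZFSet.{0}}

include hM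

theorem one_mem_M : one ∈ M :=
  hM.pair_mem hM.empty_mem (hM.pair_mem hM.empty_mem hM.empty_mem)

theorem pat' (hF : DfnF M M F) (hG : DfnF M M G) : DfnF M M fun v => pat (F v) (G v) := by
  have hB := hM.base
  exact hB.pair' (hB.upair' hF hG) (hB.pair' (hB.single' (hB.pair' hF hG))
    (DfnF.const hM.empty_mem))

theorem pat3' (hF : DfnF M M F) (hG : DfnF M M G) (hH : DfnF M M H) :
    DfnF M M fun v => pat3 (F v) (G v) (H v) := by
  have hB := hM.base
  exact hB.pair' (hB.insert' hF (hB.upair' hG hH)) (hB.pair'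
    (hB.upair' (hB.pair' hF hG) (hB.pair' hG hH)) (DfnF.const hM.empty_mem))

theorem up' (hF : DfnF M M F) (hG : DfnF M M G) : DfnF M M fun v => up (F v) (G v) := by
  have hB := hM.base
  have h1 := one_mem_M hM
  exact hB.upair' (hB.pair' hF (DfnF.const h1)) (hB.pair' hG (DfnF.const h1))

theorem chk' (hF : DfnF M M F) : DfnF M M fun v => chk (F v) := by
  have hB := hM.base
  refine DfnF.comp1 (f := chk) ?_ hF
  refine hM.memrec (G := fun _ h => im (fun u => pair (sn u) one) h) ?_ chk_eq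
  exact hM.im' (h := fun u _ => pair (sn u) one) (DfnF.proj 1)
    (hB.pair' (hM.sn' (DfnF.proj 0)) (DfnF.const (one_mem_M hM)))

theorem atn' (hF : DfnF M M F) : DfnF M M fun v => atn (F v) := by
  have hB := hM.base
  have h0 := hM.empty_mem
  have h1 : ({∅} : ZFSet.{0}) ∈ M := hM.single_mem h0
  have hp := hM.prod' hF hF
  refine hB.union' ?_ ?_
  · refine hM.im' (h := fun u _ => pair (chk (pair (pair (fs (fs u)) (fs (sn u))) ∅))
      (pat (sn (fs u)) (sn (sn u)))) ?_ ?_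
    · refine hM.sep' (Q := fun u _ => sn (fs u) ≠ sn (sn u)) hp ?_
      exact (Dfn.eq (hM.sn' (hM.fs' (DfnF.proj 0))) (hM.sn' (hM.sn' (DfnF.proj 0)))).not
    · exact hB.pair' (chk' hM (hB.pair' (hB.pair' (hM.fs' (hM.fs' (DfnF.proj 0)))
        (hM.fs' (hM.sn' (DfnF.proj 0)))) (DfnF.const h0)))
        (pat' hM (hM.sn' (hM.fs' (DfnF.proj 0))) (hM.sn' (hM.sn' (DfnF.proj 0))))
  · refine hM.im' (h := fun u _ => pair (chk (pair (pair (fs (fs u)) (fs (sn u))) {∅})) one) ?_ ?_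
    · refine hM.sep' (Q := fun u _ => sn (fs u) = sn (sn u)) hp ?_
      exact Dfn.eq (hM.sn' (hM.fs' (DfnF.proj 0))) (hM.sn' (hM.sn' (DfnF.proj 0)))
    · exact hB.pair' (chk' hM (hB.pair' (hB.pair' (hM.fs' (hM.fs' (DfnF.proj 0)))
        (hM.fs' (hM.sn' (DfnF.proj 0)))) (DfnF.const h1))) (DfnF.const (one_mem_M hM))

theorem cod' (hF : DfnF M M F) (hG : DfnF M M G) (hH : DfnF M M H) (hK : DfnF M M K)
    (hL : DfnF M M L) : DfnF M M fun v => cod (F v) (G v) (H v) (K v) (L v) := by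
  have hB := hM.base
  exact hB.pair' hF (hB.pair' hG (hB.pair' hH (hB.pair' hK hL)))

theorem zc' (hF : DfnF M M F) : DfnF M M fun v => zc (F v) := hM.fs' (hM.sn' hF)

theorem zm' (hF : DfnF M M F) : DfnF M M fun v => zm (F v) := hM.fs' (hM.sn' (hM.sn' hF))

theorem zj' (hF : DfnF M M F) : DfnF M M fun v => zj (F v) :=
  hM.fs' (hM.sn' (hM.sn' (hM.sn' hF)))

theorem zV' (hF : DfnF M M F) : DfnF M M fun v => zV (F v) :=
  hM.sn' (hM.sn' (hM.sn' (hM.sn' hF)))

theorem sc' (hF : DfnF M M F) : DfnF M M fun v => sc (F v) := hM.base.insert' hF hF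

theorem dfn_pos (hF : DfnF M M F) : Dfn M M fun v => zp (F v) :=
  (Dfn.mem (hM.fs' hF) (DfnF.const hM.infinity)).and
    (Dfn.eq (hM.fs' hF) (DfnF.const hM.empty_mem)).not

theorem dfn_prd : DfnF M M fun w : Fin 1 → ZFSet.{0} => prd (w 0) := by
  have hB := hM.base
  refine DfnF.ite (dfn_pos hM (F := fun w : Fin 1 → ZFSet.{0} => w 0) (DfnF.proj 0)) ?_
    (DfnF.const hM.empty_mem)
  refine hM.im' (h := fun j v => cod (ZFSet.sUnion (fs (v 0))) (zc (v 0)) (sc (zm (v 0))) j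
    (insert (pair (zm (v 0)) j) (zV (v 0)))) (DfnF.const hM.infinity) ?_
  exact cod' hM (hB.sUnion' (hM.fs' (DfnF.proj 1))) (zc' hM (DfnF.proj 1))
    (sc' hM (zm' hM (DfnF.proj 1))) (DfnF.proj 0)
    (hB.insert' (hB.pair' (zm' hM (DfnF.proj 1)) (DfnF.proj 0)) (zV' hM (DfnF.proj 1)))

theorem cnd' (hF : DfnF M M F) (hG : DfnF M M G) : DfnF M M fun v => cnd (F v) (G v) :=
  DfnF.ite (Dfn.eq hG (DfnF.const hM.infinity)) (DfnF.const (one_mem_M hM)) (pat' hM hF hG)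

theorem dfn_stp : DfnF M M fun w : Fin 2 → ZFSet.{0} => stp (w 0) (w 1) := by
  have hB := hM.base
  refine DfnF.ite (dfn_pos hM (F := fun w : Fin 2 → ZFSet.{0} => w 0) (DfnF.proj 0)) ?_
    (atn' hM (zV' hM (DfnF.proj 0)))
  refine hM.im' (h := fun p v => pair (sn p) (cnd (zj (fs p)) (zc (v 0)))) ?_ ?_
  · refine hM.sep' (Q := fun p v => zj (fs p) ≠ zc (v 0)) (DfnF.proj 1) ?_
    exact (Dfn.eq (zj' hM (hM.fs' (DfnF.proj 0))) (zc' hM (DfnF.proj 1))).not
  · exact hB.pair' (hM.sn' (DfnF.proj 0))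
      (cnd' hM (zj' hM (hM.fs' (DfnF.proj 0))) (zc' hM (DfnF.proj 1)))

theorem Xn' (hF : DfnF M M F) : DfnF M M fun v => Xn (F v) :=
  DfnF.comp1 (f := Xn) (hM.wfrec wf_prd (dfn_prd hM) (dfn_stp hM) Xn_eq) hF

theorem idn' (hF : DfnF M M F) : DfnF M M fun v => im (fun i => pair i i) (F v) :=
  hM.im' (h := fun i _ => pair i i) hF (hM.base.pair' (DfnF.proj 0) (DfnF.proj 0))

theorem Wn' (hF : DfnF M M F) (hG : DfnF M M G) : DfnF M M fun v => Wn (F v) (G v) := by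
  have hB := hM.base
  have h := hB.insert' (hB.pair' hF hG) (idn' hM hF)
  exact up' hM (Xn' hM (cod' hM hF hF (sc' hM hF) hG h))
    (Xn' hM (cod' hM hF (DfnF.const hM.infinity) (sc' hM hF) hG h))

theorem Sn' (hF : DfnF M M F) : DfnF M M fun v => Sn (F v) := by
  have hB := hM.base
  have h0 : ∀ {m : ℕ}, DfnF M M fun _ : Fin m → ZFSet.{0} => (∅ : ZFSet.{0}) :=
    DfnF.const hM.empty_mem
  refine hB.union' (hB.union' ?_ ?_) ?_
  · refine hM.im' (h := fun j v => pair (Wn (F v) j) (pat j (F v))) ?_ ?_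
    · exact hM.sep' (Q := fun j v => j ≠ F v) (DfnF.const hM.infinity)
        (Dfn.eq (DfnF.proj 0) hF.tail).not
    · exact hB.pair' (Wn' hM hF.tail (DfnF.proj 0)) (pat' hM (DfnF.proj 0) hF.tail)
  · refine hM.im' (h := fun i v => pair (up {pair ∅ (pat i (F v))} (up ∅ ∅)) one) hF ?_
    exact hB.pair' (up' hM (hB.single' (hB.pair' h0 (pat' hM (DfnF.proj 0) hF.tail)))
      (up' hM h0 h0)) (DfnF.const (one_mem_M hM))
  · refine hM.im' (h := fun u v => pair (up ∅ (up ∅ ∅)) (pat3 (fs u) (sn u) (F v))) ?_ ?_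
    · refine hM.sep' (Q := fun u v => fs u ≠ sn u ∧ fs u ≠ F v ∧ sn u ≠ F v)
        (hM.prod' (DfnF.const hM.infinity) (DfnF.const hM.infinity)) ?_
      exact (Dfn.eq (hM.fs' (DfnF.proj 0)) (hM.sn' (DfnF.proj 0))).not.and
        ((Dfn.eq (hM.fs' (DfnF.proj 0)) hF.tail).not.and
          (Dfn.eq (hM.sn' (DfnF.proj 0)) hF.tail).not)
    · exact hB.pair' (up' hM h0 (up' hM h0 h0))
        (pat3' hM (hM.fs' (DfnF.proj 0)) (hM.sn' (DfnF.proj 0)) hF.tail)

theorem Sg_mem : Sg ∈ M :=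
  hM.im_mem hM.infinity (hM.base.pair' (Sn' hM (DfnF.proj 0)) (DfnF.const (one_mem_M hM)))

end

end Q207.CM
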