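import Pool.Agent.Q207.CM.Main

/-!
# Countable transitive models without the power set axiom

Countable transitive elementary submodels of the class of the hereditarily countable sets.
-/

set_option autoImplicit false

namespace Q207.CM

open ZFSet (pair)
open Q207.CF
open Pool.Agent.W868 (Fml Sat Dfn DfnF IsBase TOver tOver_inr over_iUnion countable_fml nat)

theorem hc_trans : ∀ x ∈ HC, ∀ y ∈ x, y ∈ HC := by
  rintro x ⟨T, h1, h2, h3⟩ y hy
  exact ⟨T, h1, h2, h2 x h3 y hy⟩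

theorem hc_of {x : ZFSet.{0}} (h : {y | y ∈ x}.Countable) (h' : ∀ y ∈ x, y ∈ HC) : x ∈ HC := by
  choose! T h1 h2 h3 using h'
  refine ⟨{x} ∪ ⋃ y ∈ {y | y ∈ x}, T y, ?_, ?_, Or.inl rfl⟩
  · exact (Set.countable_singleton x).union (h.biUnion fun y hy => h1 y hy)
  · intro y hy z hz
    right
    rcases hy with rfl | hy
    · exact Set.mem_biUnion (show z ∈ {y' | y' ∈ y} from hz) (h3 z hz)
    · obtain ⟨w, hw, hy⟩ := Set.mem_iUnion₂.1 hy
      exact Set.mem_biUnion hw (h2 w hw y hy z hz)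

theorem hc_countable {x : ZFSet.{0}} (h : x ∈ HC) : {y | y ∈ x}.Countable := by
  obtain ⟨T, h1, h2, h3⟩ := h
  exact h1.mono fun y hy => h2 x h3 y hy

theorem hc_pair {x y : ZFSet.{0}} (hx : x ∈ HC) (hy : y ∈ HC) : ({x, y} : ZFSet.{0}) ∈ HC := by
  refine hc_of ((Set.toFinite {x, y}).countable.mono fun z hz => ?_) fun z hz => ?_
  · simpa using hz
  · rcases ZFSet.mem_pair.1 hz with rfl | rfl
    · exact hx
    · exact hy

theorem hc_sUnion {x : ZFSet.{0}} (hx : x ∈ HC) : ZFSet.sUnion x ∈ HC := by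
  refine hc_of ?_ fun z hz => ?_
  · refine ((hc_countable hx).biUnion fun y hy => hc_countable (hc_trans x hx y hy)).mono ?_
    intro z hz
    obtain ⟨y, hy, hz⟩ := ZFSet.mem_sUnion.1 hz
    exact Set.mem_biUnion (show y ∈ {y | y ∈ x} from hy) hz
  · obtain ⟨y, hy, hz⟩ := ZFSet.mem_sUnion.1 hz
    exact hc_trans _ (hc_trans _ hx _ hy) _ hz

theorem hc_omega : ZFSet.omega ∈ HC := by
  refine ⟨{ZFSet.omega} ∪ Set.range nat, ?_, ?_, Or.inl rfl⟩
  · exact (Set.countable_singleton _).union (Set.countable_range nat)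
  · intro y hy z hz
    right
    rcases hy with rfl | ⟨n, rfl⟩
    · obtain ⟨k, rfl⟩ := Pool.Agent.W868.mem_omega_iff.1 hz
      exact ⟨k, rfl⟩
    · obtain ⟨k, -, rfl⟩ := mem_nat.1 hz
      exact ⟨k, rfl⟩

theorem base_hc : IsBase HC := ⟨hc_trans, fun _ hx _ hy => hc_pair hx hy, fun _ hx => hc_sUnion hx⟩

/-- A transitive subclass of `HC` that is closed under witnesses. -/
structure Elm (M : Set ZFSet.{0}) : Prop where
  cnt : M.Countable
  sub : M ⊆ HC
  trans : ∀ x ∈ M, ∀ y ∈ x, y ∈ M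
  om : ZFSet.omega ∈ M
  wit : ∀ φ : Fml ZFSet.{0} 1, φ.Over M → (∃ a ∈ HC, Sat HC id φ ![a]) →
    ∃ a ∈ M, Sat HC id φ ![a]

theorem exists_elm {x : ZFSet.{0}} (hx : x ∈ HC) : ∃ M, Elm M ∧ x ∈ M := by
  classical
  have hw : ∀ φ : Fml ZFSet.{0} 1, ∃ a ∈ HC, (∃ a ∈ HC, Sat HC id φ ![a]) → Sat HC id φ ![a] := by
    intro φ
    by_cases h : ∃ a ∈ HC, Sat HC id φ ![a]
    · obtain ⟨a, ha, h1⟩ := h
      exact ⟨a, ha, fun _ => h1⟩
    · exact ⟨x, hx, fun h' => absurd h' h⟩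
  choose w hw1 hw2 using hw
  let st : Set ZFSet.{0} → Set ZFSet.{0} := fun X =>
    (X ∪ w '' {φ | φ.Over X}) ∪ {z | ∃ y ∈ X, z ∈ y}
  let X : ℕ → Set ZFSet.{0} := fun n => Nat.rec {x, ZFSet.omega} (fun _ Y => st Y) n
  have hX0 : X 0 = {x, ZFSet.omega} := rfl
  have hXs : ∀ n, X (n + 1) = st (X n) := fun n => rfl
  have hsub : ∀ n, X n ⊆ X (n + 1) := fun n y hy => Or.inl (Or.inl hy)
  have hmono : Monotone X := monotone_nat_of_le_succ hsub
  have hHC : ∀ n, X n ⊆ HC := by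
    intro n
    induction n with
    | zero =>
      rintro y (rfl | rfl)
      · exact hx
      · exact hc_omega
    | succ n ih =>
      rintro y ((hy | ⟨φ, -, rfl⟩) | ⟨z, hz, hy⟩)
      · exact ih hy
      · exact hw1 φ
      · exact hc_trans _ (ih hz) _ hy
  have hcnt : ∀ n, (X n).Countable := by
    intro n
    induction n with
    | zero =>
      rw [hX0]
      exact (Set.toFinite {x, ZFSet.omega}).countable
    | succ n ih =>
      rw [hXs]
      refine (ih.union ((countable_fml ih 1).image w)).union ?_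
      refine (ih.biUnion fun y hy => hc_countable (hHC n hy)).mono ?_
      rintro z ⟨y, hy, hz⟩
      exact Set.mem_biUnion hy hz
  refine ⟨⋃ n, X n, ⟨Set.countable_iUnion hcnt, Set.iUnion_subset hHC, ?_, ?_, ?_⟩, ?_⟩
  · intro y hy z hz
    obtain ⟨n, hn⟩ := Set.mem_iUnion.1 hy
    exact Set.mem_iUnion.2 ⟨n + 1, Or.inr ⟨y, hn, hz⟩⟩
  · exact Set.mem_iUnion.2 ⟨0, Or.inr rfl⟩
  · intro φ hφ h
    obtain ⟨n, hn⟩ := over_iUnion hmono φ hφ
    exact ⟨w φ, Set.mem_iUnion.2 ⟨n + 1, Or.inl (Or.inr ⟨φ, hn, rfl⟩)⟩, hw2 φ h⟩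
  · exact Set.mem_iUnion.2 ⟨0, Or.inl rfl⟩

section

variable {M : Set ZFSet.{0}} (hM : Elm M)

include hM

/-- `M` is an elementary submodel of `HC`. -/
theorem elm_sat : {n : ℕ} → (φ : Fml ZFSet.{0} n) → φ.Over M → (v : Fin n → ZFSet.{0}) →
    (∀ i, v i ∈ M) → (Sat M id φ v ↔ Sat HC id φ v)
  | _, .mem _ _, _, _, _ => Iff.rfl
  | _, .eq _ _, _, _, _ => Iff.rfl
  | _, .neg φ, h, v, hv => not_congr (elm_sat φ h v hv)
  | _, .and φ ψ, h, v, hv => and_congr (elm_sat φ h.1 v hv) (elm_sat ψ h.2 v hv)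
  | n, .ex φ, h, v, hv => by
    have hc : ∀ a ∈ M, ∀ k, (Fin.cons a v : Fin (n + 1) → ZFSet.{0}) k ∈ M := by
      intro a ha k
      refine Fin.cases ?_ (fun k => ?_) k
      · exact ha
      · exact hv k
    constructor
    · rintro ⟨a, ha, h1⟩
      exact ⟨a, hM.sub ha, (elm_sat φ h _ (hc a ha)).1 h1⟩
    · rintro ⟨a, ha, h1⟩
      let σ : Fin (n + 1) → Fin 1 ⊕ ZFSet.{0} := Fin.cons (Sum.inl 0) fun i => Sum.inr (v i)
      have hσ : ∀ j, TOver M (σ j) := by
        intro j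
        refine Fin.cases ?_ (fun j => ?_) j
        · exact TOver.inl 0
        · exact tOver_inr.2 (hv j)
      have hs : ∀ a, Sat HC id (φ.subst σ) ![a] ↔ Sat HC id φ (Fin.cons a v) := by
        intro a
        rw [Pool.Agent.W868.sat_subst]
        have h2 : (fun j => Sum.elim (![a] : Fin 1 → ZFSet.{0}) id (σ j)) =
            (Fin.cons a v : Fin (n + 1) → ZFSet.{0}) := by
          funext j
          refine Fin.cases ?_ (fun j => ?_) j
          · rfl
          · rfl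
        rw [h2]
      obtain ⟨b, hb, h2⟩ := hM.wit (φ.subst σ) (Pool.Agent.W868.over_subst _ _ hσ h)
        ⟨a, ha, (hs a).2 h1⟩
      exact ⟨b, hb, (elm_sat φ h _ (hc b hb)).2 ((hs b).1 h2)⟩

theorem elm_wit {R : ZFSet.{0} → Prop} (hR : Dfn M HC fun w : Fin 1 → ZFSet.{0} => R (w 0))
    (h : ∃ a ∈ HC, R a) : ∃ a ∈ M, R a := by
  obtain ⟨φ, hφ, hφ'⟩ := hR
  have h1 : ∀ a ∈ HC, (Sat HC id φ ![a] ↔ R a) := fun a ha =>
    hφ' ![a] (by intro i; fin_cases i; exact ha)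
  obtain ⟨a, ha, h2⟩ := h
  obtain ⟨b, hb, h3⟩ := hM.wit φ hφ ⟨a, ha, (h1 a ha).2 h2⟩
  exact ⟨b, hb, (h1 b (hM.sub hb)).1 h3⟩

theorem elm_const {n : ℕ} {a : ZFSet.{0}} (ha : a ∈ M) :
    DfnF M HC fun _ : Fin n → ZFSet.{0} => a := DfnF.const' (hM.sub ha) ha

theorem elm_eq {a : ZFSet.{0}} (ha : a ∈ HC)
    (hR : Dfn M HC fun w : Fin 1 → ZFSet.{0} => w 0 = a) : a ∈ M := by
  obtain ⟨b, hb, rfl⟩ := elm_wit hM (R := fun b => b = a) hR ⟨a, ha, rfl⟩
  exact hb

omit hM in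
/-- Truth in a set is definable. -/
theorem dfn_sat_set : {n : ℕ} → (φ : Fml ZFSet.{0} n) → φ.Over M → M ⊆ HC → {m : ℕ} →
    (F : (Fin m → ZFSet.{0}) → ZFSet.{0}) → DfnF M HC F →
    (G : Fin n → (Fin m → ZFSet.{0}) → ZFSet.{0}) → (∀ i, DfnF M HC (G i)) →
    Dfn M HC fun w => Sat {z | z ∈ F w} id φ fun i => G i w
  | n, .mem s t, h, hM, m, F, hF, G, hG => by
    have h1 : ∀ s : Fin n ⊕ ZFSet.{0}, TOver M s →
        DfnF M HC fun w : Fin m → ZFSet.{0} => Sum.elim (fun i => G i w) id s := by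
      intro s hs
      cases s with
      | inl i => exact hG i
      | inr a => exact DfnF.const' (hM (hs a rfl)) (hs a rfl)
    exact Dfn.mem (h1 s h.1) (h1 t h.2)
  | n, .eq s t, h, hM, m, F, hF, G, hG => by
    have h1 : ∀ s : Fin n ⊕ ZFSet.{0}, TOver M s →
        DfnF M HC fun w : Fin m → ZFSet.{0} => Sum.elim (fun i => G i w) id s := by
      intro s hs
      cases s with
      | inl i => exact hG i
      | inr a => exact DfnF.const' (hM (hs a rfl)) (hs a rfl)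
    exact Dfn.eq (h1 s h.1) (h1 t h.2)
  | n, .neg φ, h, hM, m, F, hF, G, hG => (dfn_sat_set φ h hM F hF G hG).not
  | n, .and φ ψ, h, hM, m, F, hF, G, hG =>
    (dfn_sat_set φ h.1 hM F hF G hG).and (dfn_sat_set ψ h.2 hM F hF G hG)
  | n, .ex φ, h, hM, m, F, hF, G, hG => by
    have h1 : Dfn M HC fun w : Fin m → ZFSet.{0} => ∃ a ∈ F w,
        Sat {z | z ∈ F w} id φ (Fin.cons a fun i => G i w) := by
      refine base_hc.bex (Q := fun a w => Sat {z | z ∈ F w} id φ (Fin.cons a fun i => G i w)) hF ?_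
      have h2 := dfn_sat_set φ h hM (m := m + 1) (fun w => F (Fin.tail w)) hF.tail
        (Fin.cons (fun w => w 0) fun i w => G i (Fin.tail w)) (by
          intro i
          refine Fin.cases ?_ (fun i => ?_) i
          · exact DfnF.proj 0
          · exact (hG i).tail)
      refine h2.congr fun w _ => ?_
      have h3 : (fun i => (Fin.cons (fun w => w 0) (fun i w => G i (Fin.tail w)) :
          Fin (n + 1) → (Fin (m + 1) → ZFSet.{0}) → ZFSet.{0}) i w) =
          Fin.cons (w 0) fun i => G i (Fin.tail w) := by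
        funext i
        refine Fin.cases ?_ (fun i => ?_) i
        · rfl
        · rfl
      rw [h3]
    exact h1

theorem elm_zfm : IsZFm M := by
  have hB := base_hc
  refine ⟨hM.trans, fun x hx y hy => ?_, fun x hx => ?_, hM.om, fun φ hφ x hx => ?_,
    fun φ hφ x hx h => ?_⟩
  · refine elm_eq hM (hc_pair (hM.sub hx) (hM.sub hy)) ?_
    exact Dfn.eq (DfnF.proj 0) (hB.upair' (elm_const hM hx) (elm_const hM hy))
  · refine elm_eq hM (hc_sUnion (hM.sub hx)) ?_
    exact Dfn.eq (DfnF.proj 0) (hB.sUnion' (elm_const hM hx))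
  · have hd : ∀ {m : ℕ} (i : Fin m), Dfn M HC fun w : Fin m → ZFSet.{0} =>
        Sat HC id φ ![w i] := by
      intro m i
      have h1 : Dfn M HC fun w : Fin 1 → ZFSet.{0} => Sat HC id φ ![w 0] :=
        ⟨φ, hφ, fun v _ => by
          have h2 : v = ![v 0] := by
            funext i
            fin_cases i
            rfl
          change Sat HC id φ v ↔ Sat HC id φ ![v 0]
          rw [← h2]⟩
      exact Dfn.comp1 (Q := fun q => Sat HC id φ ![q]) h1 (DfnF.proj i)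
    have hy : ZFSet.sep (fun z => Sat HC id φ ![z]) x ∈ HC :=
      hc_of ((hc_countable (hM.sub hx)).mono fun z hz => (ZFSet.mem_sep.1 hz).1)
        fun z hz => hc_trans _ (hM.sub hx) _ (ZFSet.mem_sep.1 hz).1
    have hR : Dfn M HC fun w : Fin 1 → ZFSet.{0} =>
        (∀ z ∈ w 0, z ∈ x ∧ Sat HC id φ ![z]) ∧ ∀ z ∈ x, Sat HC id φ ![z] → z ∈ w 0 := by
      apply Dfn.and
      · apply hB.ball (DfnF.proj 0)
        exact (Dfn.mem (DfnF.proj 0) (elm_const hM hx)).and (hd 0)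
      · apply hB.ball (elm_const hM hx)
        exact (hd 0).imp (Dfn.mem (DfnF.proj 0) (DfnF.proj 1))
    obtain ⟨y, hy, h1, h2⟩ := elm_wit hM (R := fun y =>
        (∀ z ∈ y, z ∈ x ∧ Sat HC id φ ![z]) ∧ ∀ z ∈ x, Sat HC id φ ![z] → z ∈ y) hR
      ⟨_, hy, fun z hz => ZFSet.mem_sep.1 hz, fun z hz hz' => ZFSet.mem_sep.2 ⟨hz, hz'⟩⟩
    refine ⟨y, hy, fun z => ?_⟩
    constructor
    · intro hz
      refine ⟨(h1 z hz).1, ?_⟩
      exact (elm_sat hM φ hφ ![z] (by
        intro i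
        fin_cases i
        exact hM.trans _ hy _ hz)).2 (h1 z hz).2
    · rintro ⟨hz, hz'⟩
      refine h2 z hz ?_
      exact (elm_sat hM φ hφ ![z] (by
        intro i
        fin_cases i
        exact hM.trans _ hx _ hz)).1 hz'
  · classical
    have h0 : ∀ z ∈ x, ∃ w ∈ HC, Sat HC id φ ![z, w] := by
      intro z hz
      obtain ⟨w, hw, h1⟩ := h z hz
      refine ⟨w, hM.sub hw, (elm_sat hM φ hφ ![z, w] ?_).1 h1⟩
      intro i
      fin_cases i
      · exact hM.trans _ hx _ hz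
      · exact hw
    choose! f hf1 hf2 using h0
    have hxc := hc_countable (hM.sub hx)
    obtain ⟨Y, hY⟩ : ∃ Y : ZFSet.{0}, ∀ y, y ∈ Y ↔ ∃ z ∈ x, y = f z :=
      ⟨Pool.Agent.W868.im f x, fun y => Pool.Agent.W868.mem_im⟩
    have hYH : Y ∈ HC := by
      refine hc_of ((hxc.image f).mono fun y hy => ?_) fun y hy => ?_
      · obtain ⟨z, hz, rfl⟩ := (hY y).1 hy
        exact ⟨z, hz, rfl⟩
      · obtain ⟨z, hz, rfl⟩ := (hY y).1 hy
        exact hf1 z hz
    have hR : Dfn M HC fun w : Fin 1 → ZFSet.{0} =>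
        ∀ z ∈ x, ∃ y ∈ w 0, Sat HC id φ ![z, y] := by
      apply hB.ball (elm_const hM hx)
      apply hB.bex (DfnF.proj 1)
      have h1 : Dfn M HC fun w : Fin 2 → ZFSet.{0} => Sat HC id φ ![w 0, w 1] :=
        ⟨φ, hφ, fun v _ => by
          have h2 : v = ![v 0, v 1] := by
            funext i
            fin_cases i <;> rfl
          change Sat HC id φ v ↔ Sat HC id φ ![v 0, v 1]
          rw [← h2]⟩
      exact Dfn.comp2 (Q := fun a b => Sat HC id φ ![a, b]) h1 (DfnF.proj 1) (DfnF.proj 0)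
    obtain ⟨y, hy, h1⟩ := elm_wit hM (R := fun Y => ∀ z ∈ x, ∃ y ∈ Y, Sat HC id φ ![z, y]) hR
      ⟨Y, hYH, fun z hz => ⟨f z, (hY _).2 ⟨z, hz, rfl⟩, hf2 z hz⟩⟩
    refine ⟨y, hy, fun z hz => ?_⟩
    obtain ⟨w, hw, h2⟩ := h1 z hz
    refine ⟨w, hw, (elm_sat hM φ hφ ![z, w] ?_).2 h2⟩
    intro i
    fin_cases i
    · exact hM.trans _ hx _ hz
    · exact hM.trans _ hy _ hw

theorem elm_reflects : Reflects M := by
  have hB := base_hc
  intro l hl
  have hZ := elm_zfm hM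
  -- the parameters
  obtain ⟨S, hS1, hS2, hS3⟩ : ∃ S : Set ZFSet.{0}, S ⊆ M ∧ S.Finite ∧ ∀ φ ∈ l, φ.Over S := by
    clear hZ
    induction l with
    | nil => exact ⟨∅, Set.empty_subset _, Set.finite_empty, fun φ hφ => by simp at hφ⟩
    | cons φ l ih =>
      obtain ⟨S, h1, h2, h3⟩ := ih fun ψ hψ => hl ψ (List.mem_cons_of_mem _ hψ)
      obtain ⟨T, h4, h5, h6⟩ := exists_params φ (hl φ List.mem_cons_self)
      refine ⟨S ∪ T, Set.union_subset h1 h4, h2.union h5, fun ψ hψ => ?_⟩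
      rcases List.mem_cons.1 hψ with rfl | hψ
      · exact h6.mono Set.subset_union_right
      · exact (h3 ψ hψ).mono Set.subset_union_left
  obtain ⟨s, hs⟩ : ∃ s : ZFSet.{0}, ∀ y, y ∈ s ↔ y ∈ S := by
    have := hS2.countable.to_subtype
    exact ⟨ZFSet.range fun y : S => y.1, fun y => by
      rw [ZFSet.mem_range]
      exact ⟨fun ⟨z, h⟩ => h ▸ z.2, fun h => ⟨⟨y, h⟩, rfl⟩⟩⟩
  have hsM : s ∈ M := finite_mem hZ (hS2.subset fun y hy => (hs y).1 hy)
    fun y hy => hS1 ((hs y).1 hy)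
  -- a reflecting set in HC
  obtain ⟨K, hK, hsK⟩ := exists_elm (hM.sub hsM)
  obtain ⟨N, hN⟩ : ∃ N : ZFSet.{0}, ∀ y, y ∈ N ↔ y ∈ K := by
    have := hK.cnt.to_subtype
    exact ⟨ZFSet.range fun y : K => y.1, fun y => by
      rw [ZFSet.mem_range]
      exact ⟨fun ⟨z, h⟩ => h ▸ z.2, fun h => ⟨⟨y, h⟩, rfl⟩⟩⟩
  have hNK : {z | z ∈ N} = K := Set.ext fun z => hN z
  have hNH : N ∈ HC := hc_of (hNK ▸ hK.cnt) fun y hy => hK.sub ((hN y).1 hy)
  let R : ZFSet.{0} → Prop := fun N => (∀ y ∈ N, ∀ z ∈ y, z ∈ N) ∧ (∀ a ∈ s, a ∈ N) ∧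
    ∀ φ ∈ l, ∀ y ∈ N, (Sat {z | z ∈ N} id φ ![y] ↔ Sat HC id φ ![y])
  have hRN : R N := by
    refine ⟨fun y hy z hz => (hN z).2 (hK.trans y ((hN y).1 hy) z hz),
      fun a ha => (hN a).2 (hK.trans _ hsK _ ha), fun φ hφ y hy => ?_⟩
    rw [hNK]
    refine elm_sat hK φ ?_ ![y] ?_
    · exact (hS3 φ hφ).mono fun a ha => hK.trans _ hsK _ ((hs a).2 ha)
    · intro i
      fin_cases i
      exact (hN y).1 hy
  have hRd : Dfn M HC fun w : Fin 1 → ZFSet.{0} => R (w 0) := by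
    apply Dfn.and
    · apply hB.ball (DfnF.proj 0)
      apply hB.ball (DfnF.proj 0)
      exact Dfn.mem (DfnF.proj 0) (DfnF.proj 2)
    · apply Dfn.and
      · apply hB.ball (elm_const hM hsM)
        exact Dfn.mem (DfnF.proj 0) (DfnF.proj 1)
      · clear hRN hS3 hs hsM hsK
        induction l with
        | nil => exact Dfn.tt.congr fun v _ => by simp
        | cons φ l ih =>
          have h1 := ih fun ψ hψ => hl ψ (List.mem_cons_of_mem _ hψ)
          have h2 : Dfn M HC fun w : Fin 1 → ZFSet.{0} => ∀ y ∈ w 0,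
              (Sat {z | z ∈ w 0} id φ ![y] ↔ Sat HC id φ ![y]) := by
            refine hB.ball (Q := fun y w => Sat {z | z ∈ w 0} id φ ![y] ↔ Sat HC id φ ![y])
              (DfnF.proj 0) ?_
            have hφ := hl φ List.mem_cons_self
            apply Dfn.iff
            · have h3 := dfn_sat_set φ hφ hM.sub (m := 2) (fun w => w 1) (DfnF.proj 1)
                (fun _ w => w 0) fun _ => DfnF.proj 0
              refine h3.congr fun w _ => ?_
              have h4 : (fun _ : Fin 1 => w 0) = ![w 0] := by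
                funext i
                fin_cases i
                rfl
              rw [h4]
              rfl
            · have h3 : Dfn M HC fun w : Fin 1 → ZFSet.{0} => Sat HC id φ ![w 0] :=
                ⟨φ, hφ, fun v _ => by
                  have h2 : v = ![v 0] := by
                    funext i
                    fin_cases i
                    rfl
                  change Sat HC id φ v ↔ Sat HC id φ ![v 0]
                  rw [← h2]⟩
              exact Dfn.comp1 (Q := fun q => Sat HC id φ ![q]) h3 (DfnF.proj 0)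
          exact (h2.and h1).congr fun v _ => by simp
  obtain ⟨N', hN', h1, h2, h3⟩ := elm_wit hM (R := R) hRd ⟨N, hNH, hRN⟩
  refine ⟨N', hN', h1, fun φ hφ => (hS3 φ hφ).mono fun a ha => h2 a ((hs a).2 ha),
    fun φ hφ y hy => ?_⟩
  rw [h3 φ hφ y hy]
  refine (elm_sat hM φ (hl φ hφ) ![y] ?_).symm
  intro i
  fin_cases i
  exact hM.trans _ hN' _ hy

end

end Q207.CM
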