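import Pool.Agent.Q207.CM.DefN
import Pool.Agent.W868.DZero

/-!
# Failure of the truth lemma for Friedman's forcing
-/

set_option autoImplicit false

namespace Q207.CM

open ZFSet (pair)
open Q207.CF (Ty ty ty_zero ty_succ finite_Ty ty_sat IsName val mem_val Ext IsFilter IsDense IsDefinable
  IsGeneric Forces TruthLemma FCond FLe)
open Pool.Agent.W868 (Fml Sat nat)

/-- No element `S` of `v 0` is slim. -/
def fE : Fml Empty 1 :=
  .neg (.ex (.and (.mem (Sum.inl 0) (Sum.inl 1))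
    (.neg (.ex (.and (.mem (Sum.inl 0) (Sum.inl 1))
      (.ex (.and (.mem (Sum.inl 0) (Sum.inl 1))
        (.ex (.and (.mem (Sum.inl 0) (Sum.inl 2)) (.neg (.eq (Sum.inl 0) (Sum.inl 1))))))))))))

theorem sat_fE {E : Set ZFSet.{0}} (hE : ∀ x ∈ E, ∀ y ∈ x, y ∈ E) {v : Fin 1 → ZFSet.{0}}
    (hv : v 0 ∈ E) : Sat E Empty.elim fE v ↔ ¬ ∃ S ∈ v 0, Slim S := by
  simp only [fE, Sat, Sum.elim_inl]
  refine not_congr ?_
  constructor
  · rintro ⟨S, hS, h1, h2⟩
    refine ⟨S, h1, fun z hz a ha b hb => ?_⟩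
    by_contra h3
    refine h2 ⟨z, hE _ hS _ hz, hz, a, hE _ (hE _ hS _ hz) _ ha, ha, b,
      hE _ (hE _ hS _ hz) _ hb, hb, fun h => h3 h.symm⟩
  · rintro ⟨S, hS, h1⟩
    refine ⟨S, hE _ hv _ hS, hS, ?_⟩
    rintro ⟨z, hz, h2, a, ha, h3, b, hb, h4, h5⟩
    exact h5 (h1 z h2 a h3 b h4).symm

theorem ext_trans {M P G : Set ZFSet.{0}} (hM : ∀ x ∈ M, ∀ y ∈ x, y ∈ M) :
    ∀ x ∈ Ext M P G, ∀ y ∈ x, y ∈ Ext M P G := by
  rintro x ⟨σ, hσ, hn, rfl⟩ y hy
  obtain ⟨τ, p, hp, h, rfl⟩ := mem_val.1 hy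
  refine ⟨τ, ?_, ?_, rfl⟩
  · have h1 := hM _ hσ _ h
    have h2 : ({τ} : ZFSet.{0}) ∈ M := hM _ h1 _ (by simp [pair])
    exact hM _ h2 _ (ZFSet.mem_singleton.2 rfl)
  · obtain ⟨τ', p', -, h1, h2⟩ := isName_iff.1 hn _ h
    rwa [(ZFSet.pair_inj.1 h1).1]

/-- In the extension by `g`, the formula says that there is no event. -/
theorem sat_event {M : Set ZFSet.{0}} (hM : IsZFm M) {g : ℕ → ZFSet.{0}} (hg : Gn M g) :
    (Sat (Ext M {p | FCond M p} (Gf M g)) Empty.elim fE fun _ => val (Gf M g) Sg) ↔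
      ¬ ∃ k, Ev M g k := by
  rw [sat_fE (ext_trans hM.trans) ⟨Sg, Sg_mem hM, isName_Sg, rfl⟩]
  refine not_congr ?_
  constructor
  · rintro ⟨S, hS, h⟩
    obtain ⟨k, rfl⟩ := mem_val_Sg.1 hS
    exact ⟨k, (slim_Sn hg hM.trans).1 h⟩
  · rintro ⟨k, hk⟩
    exact ⟨_, mem_val_Sg.2 ⟨k, rfl⟩, (slim_Sn hg hM.trans).2 hk⟩

/-- The truth lemma fails for Friedman's forcing over all countable transitive models of set
theory without the power set axiom that satisfy the reflection principle for types. -/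
theorem not_truthLemma {M : Set ZFSet.{0}} (hM : IsZFm M) (hc : M.Countable) (hR : Refl M)
    {S : Set ZFSet.{0}} (hS : S ⊆ M) : ¬ TruthLemma S M {p | FCond M p} FLe := by
  intro h
  obtain ⟨g, hg, hfree⟩ := exists_gn_free hM hc hR
  obtain ⟨p, hp, hp'⟩ := h 1 fE (fun _ => Sg) (fun _ => ⟨Sg_mem hM, isName_Sg⟩) _ (hg.generic hS)
    ((sat_event hM hg).2 fun ⟨k, hk⟩ => hfree k hk)
  obtain ⟨g', hg', hpg', hk⟩ := exists_gn_event hM hc hR hg hp
  exact (sat_event hM hg').1 (hp' _ (hg'.generic hS) hpg') hk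

/-! ### Formulas for types -/

/-- The relation `R A` is defined by one formula in all classes `A`. -/
def Fd {m : ℕ} (R : Set ZFSet.{0} → (Fin m → ZFSet.{0}) → Prop) : Prop :=
  ∃ φ : Fml Empty m, ∀ A v, Sat A Empty.elim φ v ↔ R A v

theorem Fd.congr {m : ℕ} {R T : Set ZFSet.{0} → (Fin m → ZFSet.{0}) → Prop} (h : Fd R)
    (h' : ∀ A v, R A v ↔ T A v) : Fd T := by
  obtain ⟨φ, hφ⟩ := h
  exact ⟨φ, fun A v => (hφ A v).trans (h' A v)⟩

theorem Fd.not {m : ℕ} {R : Set ZFSet.{0} → (Fin m → ZFSet.{0}) → Prop} (h : Fd R) :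
    Fd fun A v => ¬ R A v := by
  obtain ⟨φ, hφ⟩ := h
  exact ⟨.neg φ, fun A v => not_congr (hφ A v)⟩

theorem Fd.and {m : ℕ} {R T : Set ZFSet.{0} → (Fin m → ZFSet.{0}) → Prop} (h : Fd R)
    (h' : Fd T) : Fd fun A v => R A v ∧ T A v := by
  obtain ⟨φ, hφ⟩ := h
  obtain ⟨ψ, hψ⟩ := h'
  exact ⟨.and φ ψ, fun A v => and_congr (hφ A v) (hψ A v)⟩

theorem Fd.tt {m : ℕ} : Fd fun _ (_ : Fin m → ZFSet.{0}) => True :=
  ⟨.neg (.ex (.neg (.eq (Sum.inl 0) (Sum.inl 0)))), fun A v => by simp [Sat]⟩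

theorem Fd.prop {m : ℕ} (p : Prop) : Fd fun _ (_ : Fin m → ZFSet.{0}) => p := by
  by_cases h : p
  · exact Fd.tt.congr fun _ _ => by simp [h]
  · exact Fd.tt.not.congr fun _ _ => by simp [h]

theorem Fd.iffp {m : ℕ} {R : Set ZFSet.{0} → (Fin m → ZFSet.{0}) → Prop} (h : Fd R) (p : Prop) :
    Fd fun A v => R A v ↔ p := by
  by_cases h1 : p
  · exact h.congr fun _ _ => by simp [h1]
  · exact h.not.congr fun _ _ => by simp [h1]

theorem Fd.ex {m : ℕ} {R : Set ZFSet.{0} → (Fin (m + 1) → ZFSet.{0}) → Prop} (h : Fd R) :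
    Fd fun A (v : Fin m → ZFSet.{0}) => ∃ a ∈ A, R A (Fin.cons a v) := by
  obtain ⟨φ, hφ⟩ := h
  exact ⟨.ex φ, fun A v => exists_congr fun a => and_congr_right fun _ => hφ A _⟩

theorem Fd.all {m : ℕ} {ι : Type} [hι : Finite ι]
    {R : ι → Set ZFSet.{0} → (Fin m → ZFSet.{0}) → Prop} (h : ∀ i, Fd (R i)) :
    Fd fun A v => ∀ i, R i A v := by
  have key : ∀ s : Set ι, s.Finite → Fd fun A v => ∀ i ∈ s, R i A v := by
    intro s hs
    induction s, hs using Set.Finite.induction_on with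
    | empty => exact Fd.tt.congr fun _ _ => by simp
    | @insert a t _ _ ih =>
      exact ((h a).and ih).congr fun A v => by simp
  exact (key Set.univ Set.finite_univ).congr fun A v => by simp

/-- Types are defined by formulas. -/
theorem fd_ty : (k m : ℕ) → (κ : Ty k m) → Fd fun A (v : Fin m → ZFSet.{0}) => ty A k v = κ
  | 0, m, κ => by
    have h1 : Fd fun _ (v : Fin m → ZFSet.{0}) =>
        (∀ p : Fin m × Fin m, v p.1 ∈ v p.2 ↔
          p ∈ (show Set (Fin m × Fin m) × Set (Fin m × Fin m) from κ).1) ∧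
        (∀ p : Fin m × Fin m, v p.1 = v p.2 ↔
          p ∈ (show Set (Fin m × Fin m) × Set (Fin m × Fin m) from κ).2) := by
      refine Fd.and (Fd.all fun p => Fd.iffp ?_ _) (Fd.all fun p => Fd.iffp ?_ _)
      · exact ⟨.mem (Sum.inl p.1) (Sum.inl p.2), fun _ _ => Iff.rfl⟩
      · exact ⟨.eq (Sum.inl p.1) (Sum.inl p.2), fun _ _ => Iff.rfl⟩
    refine h1.congr fun A v => ?_
    have h2 : ty A 0 v = κ ↔ (({p : Fin m × Fin m | v p.1 ∈ v p.2},
        {p : Fin m × Fin m | v p.1 = v p.2}) : Set (Fin m × Fin m) × Set (Fin m × Fin m)) =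
        (show Set (Fin m × Fin m) × Set (Fin m × Fin m) from κ) := Iff.rfl
    rw [h2, Prod.ext_iff, Set.ext_iff, Set.ext_iff]
    rfl
  | k + 1, m, κ => by
    have := finite_Ty k (m + 1)
    have h1 : Fd fun A (v : Fin m → ZFSet.{0}) => ∀ κ' : Ty k (m + 1),
        (∃ y ∈ A, ty A k (Fin.cons y v : Fin (m + 1) → ZFSet.{0}) = κ') ↔
          κ' ∈ (show Set (Ty k (m + 1)) from κ) := by
      have h3 : Finite (Ty k (m + 1)) := finite_Ty k (m + 1)
      exact Fd.all fun κ' => Fd.iffp (fd_ty k (m + 1) κ').ex _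
    refine h1.congr fun A v => ?_
    have h2 : ty A (k + 1) v = κ ↔
        ({κ' : Ty k (m + 1) | ∃ y ∈ A, κ' = ty A k (Fin.cons y v)} : Set (Ty k (m + 1))) =
        (show Set (Ty k (m + 1)) from κ) := Iff.rfl
    rw [h2, Set.ext_iff]
    refine forall_congr' fun κ' => ?_
    have h4 : (∃ y ∈ A, ty A k (Fin.cons y v : Fin (m + 1) → ZFSet.{0}) = κ') ↔
        κ' ∈ ({κ' : Ty k (m + 1) | ∃ y ∈ A, κ' = ty A k (Fin.cons y v)} :
          Set (Ty k (m + 1))) := by
      constructor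
      · rintro ⟨y, hy, h⟩
        exact ⟨y, hy, h.symm⟩
      · rintro ⟨y, hy, h⟩
        exact ⟨y, hy, h.symm⟩
    rw [h4]

/-! ### The reflection principle for formulas -/

theorem over_map_empty {S : Set ZFSet.{0}} {m : ℕ} (φ : Fml Empty m) :
    (φ.map (Empty.elim : Empty → ZFSet.{0})).Over S := by
  rw [Pool.Agent.W868.over_map]
  induction φ with
  | mem s t =>
    constructor
    · cases s with
      | inl i => exact Pool.Agent.W868.TOver.inl i
      | inr a => exact a.elim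
    · cases t with
      | inl i => exact Pool.Agent.W868.TOver.inl i
      | inr a => exact a.elim
  | eq s t =>
    constructor
    · cases s with
      | inl i => exact Pool.Agent.W868.TOver.inl i
      | inr a => exact a.elim
    · cases t with
      | inl i => exact Pool.Agent.W868.TOver.inl i
      | inr a => exact a.elim
  | neg φ ih => exact ih
  | and φ ψ ih1 ih2 => exact ⟨ih1, ih2⟩
  | ex φ ih => exact ih

/-- Reflection for formulas implies reflection for types. -/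
theorem refl_of_reflects {M : Set ZFSet.{0}} (h : Reflects M) : Refl M := by
  classical
  intro k x hx
  have hfin := finite_Ty k (k + 1)
  obtain ⟨L, hL⟩ := (Set.finite_univ (α := Ty k (k + 1))).exists_finset_coe
  choose F hF using fun κ : Ty k (k + 1) => fd_ty k (k + 1) κ
  let σ : Fin (k + 1) → Fin 1 ⊕ ZFSet.{0} := Fin.cons (Sum.inl 0) fun i => Sum.inr (x i)
  have hσ : ∀ j, Pool.Agent.W868.TOver M (σ j) := by
    intro j
    refine Fin.cases ?_ (fun j => ?_) j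
    · exact Pool.Agent.W868.TOver.inl 0
    · exact Pool.Agent.W868.tOver_inr.2 (hx j)
  let Φ : Ty k (k + 1) → Fml ZFSet.{0} 1 := fun κ =>
    ((F κ).map (Empty.elim : Empty → ZFSet.{0})).subst σ
  have hΦ : ∀ (A : Set ZFSet.{0}) (κ : Ty k (k + 1)) (y : ZFSet.{0}),
      Sat A id (Φ κ) ![y] ↔ ty A k (Fin.cons y x : Fin (k + 1) → ZFSet.{0}) = κ := by
    intro A κ y
    rw [Pool.Agent.W868.sat_subst, Pool.Agent.W868.sat_map]
    have h1 : (id ∘ Empty.elim : Empty → ZFSet.{0}) = Empty.elim := funext fun a => a.elim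
    have h2 : (fun j => Sum.elim (![y] : Fin 1 → ZFSet.{0}) id (σ j)) =
        (Fin.cons y x : Fin (k + 1) → ZFSet.{0}) := by
      funext j
      refine Fin.cases ?_ (fun j => ?_) j
      · rfl
      · rfl
    rw [h1, h2]
    exact hF κ A _
  obtain ⟨N, hN, hNt, hNo, hNs⟩ := h (L.toList.map Φ ++ (List.finRange k).map fun i =>
      (.eq (Sum.inr (x i)) (Sum.inr (x i)) : Fml ZFSet.{0} 1)) (by
    intro φ hφ
    rw [List.mem_append, List.mem_map, List.mem_map] at hφ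
    rcases hφ with ⟨κ, -, rfl⟩ | ⟨i, -, rfl⟩
    · exact Pool.Agent.W868.over_subst _ _ hσ (over_map_empty _)
    · exact ⟨Pool.Agent.W868.tOver_inr.2 (hx i), Pool.Agent.W868.tOver_inr.2 (hx i)⟩)
  refine ⟨N, hN, hNt, fun i => ?_, fun y hy => ?_⟩
  · have h1 := hNo (.eq (Sum.inr (x i)) (Sum.inr (x i))) (by
      rw [List.mem_append, List.mem_map, List.mem_map]
      exact Or.inr ⟨i, List.mem_finRange i, rfl⟩)
    exact Pool.Agent.W868.tOver_inr.1 h1.1
  · have h1 := hNs (Φ (ty M k (Fin.cons y x : Fin (k + 1) → ZFSet.{0}))) (by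
      rw [List.mem_append, List.mem_map]
      refine Or.inl ⟨_, ?_, rfl⟩
      rw [Finset.mem_toList, ← Finset.mem_coe, hL]
      trivial) y hy
    rw [hΦ, hΦ] at h1
    exact h1.2 rfl

end Q207.CM
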