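import Pool.Agent.Q207.CM.Names

/-!
# Names for back and forth types
-/

set_option autoImplicit false

namespace Q207.CM

open ZFSet (pair)
open Q207.CF (Ty ty ty_zero ty_succ finite_Ty ty_sat IsName val mem_val Ext IsFilter IsDense IsDefinable
  IsGeneric Forces TruthLemma FCond FLe)
open Pool.Agent.W868 (Fml Sat Dfn DfnF nat nat_injective mem_omega_iff fs sn fs_pair sn_pair
  im mem_im gr mem_gr wfF wfF_eq sc nat_mem_omega)

/-- The code of the name of depth `n` for the structure `c` and the tuple `V` of length `m`, whose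
last element is `j`. -/
noncomputable def cod (n c m j V : ZFSet.{0}) : ZFSet.{0} := pair n (pair c (pair m (pair j V)))

noncomputable def zc (z : ZFSet.{0}) : ZFSet.{0} := fs (sn z)
noncomputable def zm (z : ZFSet.{0}) : ZFSet.{0} := fs (sn (sn z))
noncomputable def zj (z : ZFSet.{0}) : ZFSet.{0} := fs (sn (sn (sn z)))
noncomputable def zV (z : ZFSet.{0}) : ZFSet.{0} := sn (sn (sn (sn z)))

/-- The first component is a positive natural number. -/
def zp (z : ZFSet.{0}) : Prop := fs z ∈ ZFSet.omega ∧ fs z ≠ ∅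

/-- The set of the predecessors of a code. -/
noncomputable def prd (z : ZFSet.{0}) : ZFSet.{0} :=
  open Classical in
  if zp z then
    im (fun j => cod (ZFSet.sUnion (fs z)) (zc z) (sc (zm z)) j (insert (pair (zm z) j) (zV z)))
      ZFSet.omega
  else ∅

theorem sUnion_nat (n : ℕ) : ZFSet.sUnion (nat (n + 1)) = nat n := by
  ext x
  rw [ZFSet.mem_sUnion]
  constructor
  · rintro ⟨y, hy, hx⟩
    obtain ⟨i, hi, rfl⟩ := mem_nat.1 hy
    obtain ⟨j, hj, rfl⟩ := mem_nat.1 hx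
    exact nat_mem_nat.2 (by omega)
  · intro hx
    exact ⟨nat n, nat_mem_nat.2 (by omega), hx⟩

theorem wf_prd : WellFounded fun u z => u ∈ prd z := by
  refine Subrelation.wf (r := InvImage (· < ·) fun z => (fs z).rank) ?_
    (InvImage.wf _ Ordinal.lt_wf)
  intro u z h
  rw [prd] at h
  split_ifs at h with h1
  · obtain ⟨j, -, rfl⟩ := mem_im.1 h
    obtain ⟨n, hn⟩ := mem_omega_iff.1 h1.1
    cases n with
    | zero => exact absurd hn h1.2
    | succ n =>
      change (fs (cod _ _ _ _ _)).rank < (fs z).rank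
      rw [cod, fs_pair, hn, sUnion_nat]
      exact ZFSet.rank_lt_of_mem (nat_mem_nat.2 (by omega))
  · exact absurd h (ZFSet.notMem_empty _)

/-- The condition that says that `g j` is an element of the structure `c`. -/
noncomputable def cnd (j c : ZFSet.{0}) : ZFSet.{0} :=
  open Classical in
  if c = ZFSet.omega then one else pat j c

/-- The recursion step. -/
noncomputable def stp (z h : ZFSet.{0}) : ZFSet.{0} :=
  open Classical in
  if zp z then
    im (fun p => pair (sn p) (cnd (zj (fs p)) (zc z))) (ZFSet.sep (fun p => zj (fs p) ≠ zc z) h)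
  else atn (zV z)

/-- The names for the back and forth types. -/
noncomputable def Xn : ZFSet.{0} → ZFSet.{0} := wfF prd wf_prd stp

theorem Xn_eq (z : ZFSet.{0}) : Xn z = stp z (gr Xn (prd z)) := by
  rw [Xn, wfF_eq]

/-- The structures: `none` stands for the model, `some k` for the set `g k`. -/
noncomputable def cz : Option ℕ → ZFSet.{0}
  | none => ZFSet.omega
  | some k => nat k

def Dm (M : Set ZFSet.{0}) (g : ℕ → ZFSet.{0}) : Option ℕ → Set ZFSet.{0}
  | none => M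
  | some k => {z | z ∈ g k}

theorem nat_ne_omega (k : ℕ) : nat k ≠ ZFSet.omega := by
  intro h
  have h1 := nat_mem_omega k
  rw [← h] at h1
  exact ZFSet.mem_irrefl _ h1

theorem cz_ne {j : ℕ} {c : Option ℕ} : nat j ≠ cz c ↔ c ≠ some j := by
  cases c with
  | none => simp [cz, nat_ne_omega]
  | some k =>
    rw [cz, ne_eq, ne_eq, Option.some.injEq]
    exact not_congr ⟨fun h => (nat_injective h).symm, fun h => by rw [h]⟩

theorem Xn_zero {c : ZFSet.{0}} {m : ℕ} {j : ZFSet.{0}} {v : Fin m → ℕ} :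
    Xn (cod (nat 0) c (nat m) j (vs m v)) = atn (vs m v) := by
  rw [Xn_eq, stp, if_neg]
  · simp [zV, cod]
  · rintro ⟨-, h⟩
    exact h (by simp [cod, nat])

theorem mem_Xn_succ {n : ℕ} {c : Option ℕ} {m : ℕ} {j : ZFSet.{0}} {v : Fin m → ℕ}
    {x : ZFSet.{0}} : x ∈ Xn (cod (nat (n + 1)) (cz c) (nat m) j (vs m v)) ↔
      ∃ i : ℕ, c ≠ some i ∧ x = pair (Xn (cod (nat n) (cz c) (nat (m + 1)) (nat i)
        (vs (m + 1) (Fin.cons i v)))) (cnd (nat i) (cz c)) := by
  have hne : zp (cod (nat (n + 1)) (cz c) (nat m) j (vs m v)) := by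
    rw [zp, cod, fs_pair]
    refine ⟨nat_mem_omega _, fun h => ?_⟩
    have h1 : nat n ∈ nat (n + 1) := nat_mem_nat.2 (by omega)
    rw [h] at h1
    exact ZFSet.notMem_empty _ h1
  have h0 : ∀ i : ℕ, cod (ZFSet.sUnion (nat (n + 1))) (cz c) (sc (nat m)) (nat i)
      (insert (pair (nat m) (nat i)) (vs m v)) =
      cod (nat n) (cz c) (nat (m + 1)) (nat i) (vs (m + 1) (Fin.cons i v)) := by
    intro i
    rw [sUnion_nat, vs]
    rfl
  rw [Xn_eq, stp, if_pos hne, prd, if_pos hne, mem_im]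
  simp only [zc, zm, zV, zj, cod, fs_pair, sn_pair]
  constructor
  · rintro ⟨p, hp, rfl⟩
    rw [ZFSet.mem_sep, mem_gr] at hp
    obtain ⟨⟨u, hu, rfl⟩, hp⟩ := hp
    obtain ⟨i', hi', rfl⟩ := mem_im.1 hu
    obtain ⟨i, rfl⟩ := mem_omega_iff.1 hi'
    simp only [fs_pair, sn_pair] at hp ⊢
    refine ⟨i, cz_ne.1 hp, ?_⟩
    have h1 := h0 i
    rw [cod, cod] at h1
    rw [h1]
  · rintro ⟨i, hi, rfl⟩
    have h1 := h0 i
    rw [cod, cod] at h1
    refine ⟨_, ZFSet.mem_sep.2 ⟨mem_gr.2 ⟨_, mem_im.2 ⟨nat i, nat_mem_omega i, rfl⟩, rfl⟩, ?_⟩, ?_⟩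
    · simp only [fs_pair, sn_pair]
      exact cz_ne.2 hi
    · simp only [fs_pair, sn_pair]
      rw [h1]

section

variable {M : Set ZFSet.{0}} {g : ℕ → ZFSet.{0}}

theorem fcond_cnd {i : ℕ} {c : Option ℕ} (h : c ≠ some i) : FCond M (cnd (nat i) (cz c)) := by
  cases c with
  | none =>
    rw [cnd, cz, if_pos rfl]
    exact fcond_one
  | some k =>
    rw [cnd, cz, if_neg (nat_ne_omega k)]
    exact fcond_pat fun h' => h (by rw [h'])

theorem cnd_mem (hg : ∀ i, g i ∈ M) {i : ℕ} {c : Option ℕ} (h : c ≠ some i) :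
    cnd (nat i) (cz c) ∈ Gf M g ↔ g i ∈ Dm M g c := by
  cases c with
  | none =>
    rw [cnd, cz, if_pos rfl]
    exact iff_of_true one_mem (hg i)
  | some k =>
    rw [cnd, cz, if_neg (nat_ne_omega k)]
    exact pat_mem fun h' => h (by rw [h'])

theorem isName_Xn : (n : ℕ) → (c : Option ℕ) → (m : ℕ) → (j : ZFSet.{0}) → (v : Fin m → ℕ) →
    IsName {p | FCond M p} (Xn (cod (nat n) (cz c) (nat m) j (vs m v)))
  | 0, c, m, j, v => by
    rw [Xn_zero]
    exact isName_atn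
  | n + 1, c, m, j, v => by
    rw [isName_iff]
    intro x hx
    obtain ⟨i, hi, rfl⟩ := mem_Xn_succ.1 hx
    exact ⟨_, _, fcond_cnd hi, rfl, isName_Xn n c (m + 1) (nat i) (Fin.cons i v)⟩

theorem mem_val_Xn (hg : Gn M g) {n : ℕ} {c : Option ℕ} {m : ℕ}
    {j : ZFSet.{0}} {v : Fin m → ℕ} {y : ZFSet.{0}} :
    y ∈ val (Gf M g) (Xn (cod (nat (n + 1)) (cz c) (nat m) j (vs m v))) ↔
      ∃ i : ℕ, g i ∈ Dm M g c ∧ y = val (Gf M g) (Xn (cod (nat n) (cz c) (nat (m + 1)) (nat i)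
        (vs (m + 1) (Fin.cons i v)))) := by
  rw [mem_val]
  constructor
  · rintro ⟨τ, p, hp, h, rfl⟩
    obtain ⟨i, hi, h1⟩ := mem_Xn_succ.1 h
    obtain ⟨rfl, rfl⟩ := ZFSet.pair_inj.1 h1
    exact ⟨i, (cnd_mem hg.mem hi).1 hp, rfl⟩
  · rintro ⟨i, hi, rfl⟩
    have h : c ≠ some i := by
      rintro rfl
      exact ZFSet.mem_irrefl _ hi
    exact ⟨_, _, (cnd_mem hg.mem h).2 hi, mem_Xn_succ.2 ⟨i, h, rfl⟩, rfl⟩

theorem cons_comp (g : ℕ → ZFSet.{0}) {m : ℕ} (i : ℕ) (v : Fin m → ℕ) :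
    (fun a => g ((Fin.cons i v : Fin (m + 1) → ℕ) a)) =
      (Fin.cons (g i) fun a => g (v a) : Fin (m + 1) → ZFSet.{0}) := by
  funext a
  refine Fin.cases ?_ (fun a => ?_) a
  · rfl
  · rfl

/-- The names have the same value if and only if the types are the same. -/
theorem val_Xn_eq (hg : Gn M g) (hM : ∀ x ∈ M, ∀ y ∈ x, y ∈ M) : (n : ℕ) → (c c' : Option ℕ) →
    (m : ℕ) → (j j' : ZFSet.{0}) → (v v' : Fin m → ℕ) →
    (val (Gf M g) (Xn (cod (nat n) (cz c) (nat m) j (vs m v))) =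
      val (Gf M g) (Xn (cod (nat n) (cz c') (nat m) j' (vs m v'))) ↔
      ty (Dm M g c) n (fun i => g (v i)) = ty (Dm M g c') n (fun i => g (v' i)))
  | 0, c, c', m, j, j', v, v' => by
    rw [Xn_zero, Xn_zero]
    exact val_atn_eq hg.inj
  | n + 1, c, c', m, j, j', v, v' => by
    have hsub : ∀ c, ∀ y ∈ Dm M g c, ∃ i, g i = y := by
      intro c y hy
      refine hg.surj y ?_
      cases c with
      | none => exact hy
      | some k => exact hM _ (hg.mem k) _ hy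
    rw [ty_succ, ZFSet.ext_iff]
    constructor
    · intro h
      constructor
      · intro y hy
        obtain ⟨i, rfl⟩ := hsub c y hy
        obtain ⟨i', hi', h1⟩ := (mem_val_Xn hg).1 ((h _).1 ((mem_val_Xn hg).2 ⟨i, hy, rfl⟩))
        refine ⟨g i', hi', ?_⟩
        rw [← cons_comp, ← cons_comp]
        exact (val_Xn_eq hg hM n c c' (m + 1) _ _ _ _).1 h1
      · intro y hy
        obtain ⟨i, rfl⟩ := hsub c' y hy
        obtain ⟨i', hi', h1⟩ := (mem_val_Xn hg).1 ((h _).2 ((mem_val_Xn hg).2 ⟨i, hy, rfl⟩))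
        refine ⟨g i', hi', ?_⟩
        rw [← cons_comp, ← cons_comp]
        exact (val_Xn_eq hg hM n c c' (m + 1) _ _ _ _).1 h1.symm
    · rintro ⟨h1, h2⟩ z
      rw [mem_val_Xn hg, mem_val_Xn hg]
      constructor
      · rintro ⟨i, hi, rfl⟩
        obtain ⟨y, hy, h3⟩ := h1 _ hi
        obtain ⟨i', rfl⟩ := hsub c' y hy
        refine ⟨i', hy, ?_⟩
        rw [← cons_comp, ← cons_comp] at h3
        exact (val_Xn_eq hg hM n c c' (m + 1) _ _ _ _).2 h3
      · rintro ⟨i, hi, rfl⟩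
        obtain ⟨y, hy, h3⟩ := h2 _ hi
        obtain ⟨i', rfl⟩ := hsub c y hy
        refine ⟨i', hy, ?_⟩
        rw [← cons_comp, ← cons_comp] at h3
        exact ((val_Xn_eq hg hM n c c' (m + 1) _ _ _ _).2 h3).symm

end

/-! ### The names for the events -/

/-- The name for the pair of the types of `g j, g (k - 1), ..., g 0` in `g k` and in `M`. -/
noncomputable def Wn (k j : ZFSet.{0}) : ZFSet.{0} :=
  up (Xn (cod k k (sc k) j (insert (pair k j) (im (fun i => pair i i) k))))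
    (Xn (cod k ZFSet.omega (sc k) j (insert (pair k j) (im (fun i => pair i i) k))))

/-- The name for the set of all obstacles to an event at `k`. -/
noncomputable def Sn (k : ZFSet.{0}) : ZFSet.{0} :=
  (im (fun j => pair (Wn k j) (pat j k)) (ZFSet.sep (fun j => j ≠ k) ZFSet.omega) ∪
    im (fun i => pair (up {pair ∅ (pat i k)} (up ∅ ∅)) one) k) ∪
    im (fun u => pair (up ∅ (up ∅ ∅)) (pat3 (fs u) (sn u) k))
      (ZFSet.sep (fun u => fs u ≠ sn u ∧ fs u ≠ k ∧ sn u ≠ k)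
        (ZFSet.prod ZFSet.omega ZFSet.omega))

/-- The name for the set of the sets of obstacles. -/
noncomputable def Sg : ZFSet.{0} := im (fun k => pair (Sn k) one) ZFSet.omega

/-- The tuple `k - 1, ..., 0`. -/
def tpi : (k : ℕ) → Fin k → ℕ
  | 0 => Fin.elim0
  | k + 1 => Fin.cons k (tpi k)

theorem comp_tpi (g : ℕ → ZFSet.{0}) : (k : ℕ) → (fun a => g (tpi k a)) = tp g k
  | 0 => by
    funext a
    exact a.elim0
  | k + 1 => by
    rw [tpi, cons_comp, comp_tpi, tp]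

theorem vs_tpi : (k : ℕ) → vs k (tpi k) = im (fun i => pair i i) (nat k)
  | 0 => by
    ext x
    rw [mem_im]
    simp [vs, nat]
  | k + 1 => by
    have h : vs (k + 1) (tpi (k + 1)) = insert (pair (nat k) (nat k)) (vs k (tpi k)) := rfl
    rw [h, vs_tpi]
    ext x
    rw [ZFSet.mem_insert_iff, mem_im, mem_im]
    constructor
    · rintro (rfl | ⟨i, hi, rfl⟩)
      · exact ⟨nat k, nat_mem_nat.2 (by omega), rfl⟩
      · exact ⟨i, ZFSet.mem_insert_of_mem _ hi, rfl⟩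
    · rintro ⟨i, hi, rfl⟩
      rcases ZFSet.mem_insert_iff.1 hi with rfl | hi
      · exact Or.inl rfl
      · exact Or.inr ⟨i, hi, rfl⟩

theorem cod_W (n c : ZFSet.{0}) (k j : ℕ) :
    cod n c (sc (nat k)) (nat j) (insert (pair (nat k) (nat j)) (im (fun i => pair i i) (nat k))) =
      cod n c (nat (k + 1)) (nat j) (vs (k + 1) (Fin.cons j (tpi k))) := by
  rw [← vs_tpi, vs]
  rfl

section

variable {M : Set ZFSet.{0}} {g : ℕ → ZFSet.{0}}

theorem isName_Wn {k j : ℕ} : IsName {p | FCond M p} (Wn (nat k) (nat j)) := by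
  rw [Wn, cod_W, cod_W]
  exact isName_up (isName_Xn k (some k) (k + 1) _ _) (isName_Xn k none (k + 1) _ _)

theorem isName_Sn {k : ℕ} : IsName {p | FCond M p} (Sn (nat k)) := by
  rw [isName_iff]
  intro x hx
  rw [Sn, ZFSet.mem_union, ZFSet.mem_union, mem_im, mem_im, mem_im] at hx
  rcases hx with (⟨j, hj, rfl⟩ | ⟨i, hi, rfl⟩) | ⟨u, hu, rfl⟩
  · rw [ZFSet.mem_sep] at hj
    obtain ⟨hj1, hj2⟩ := hj
    obtain ⟨j, rfl⟩ := mem_omega_iff.1 hj1
    exact ⟨_, _, fcond_pat fun h => hj2 (by rw [h]), rfl, isName_Wn⟩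
  · obtain ⟨i, hi, rfl⟩ := mem_nat.1 hi
    refine ⟨_, _, fcond_one, rfl, isName_up ?_ (isName_up isName_empty isName_empty)⟩
    rw [isName_iff]
    intro z hz
    exact ⟨_, _, fcond_pat (by omega), ZFSet.mem_singleton.1 hz, isName_empty⟩
  · rw [ZFSet.mem_sep, ZFSet.mem_prod] at hu
    obtain ⟨⟨i, hi, j, hj, rfl⟩, hu⟩ := hu
    obtain ⟨i, rfl⟩ := mem_omega_iff.1 hi
    obtain ⟨j, rfl⟩ := mem_omega_iff.1 hj
    simp only [fs_pair, sn_pair] at hu ⊢
    exact ⟨_, _, fcond_pat3 (fun h => hu.1 (by rw [h])) (fun h => hu.2.1 (by rw [h]))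
      (fun h => hu.2.2 (by rw [h])), rfl,
      isName_up isName_empty (isName_up isName_empty isName_empty)⟩

theorem isName_Sg : IsName {p | FCond M p} Sg := by
  rw [isName_iff]
  intro x hx
  rw [Sg, mem_im] at hx
  obtain ⟨k, hk, rfl⟩ := hx
  obtain ⟨k, rfl⟩ := mem_omega_iff.1 hk
  exact ⟨_, _, fcond_one, rfl, isName_Sn⟩

/-- All elements of `x` have at most one element. -/
def Slim (x : ZFSet.{0}) : Prop := ∀ z ∈ x, ∀ a ∈ z, ∀ b ∈ z, a = b

theorem slim_pair {a b : ZFSet.{0}} : (∀ x ∈ ({a, b} : ZFSet.{0}), ∀ y ∈ ({a, b} : ZFSet.{0}),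
    x = y) ↔ a = b := by
  constructor
  · intro h
    exact h a (ZFSet.mem_pair.2 (Or.inl rfl)) b (ZFSet.mem_pair.2 (Or.inr rfl))
  · rintro rfl x hx y hy
    rw [ZFSet.mem_pair] at hx hy
    rw [hx.elim id id, hy.elim id id]

theorem slim_Sn (hg : Gn M g) (hM : ∀ x ∈ M, ∀ y ∈ x, y ∈ M) {k : ℕ} :
    Slim (val (Gf M g) (Sn (nat k))) ↔ Ev M g k := by
  have h1 : val (Gf M g) (up ∅ ∅) = {∅} := by
    rw [val_up, val_empty, ZFSet.pair_eq_singleton]
  have hW : ∀ j, (∀ a ∈ val (Gf M g) (Wn (nat k) (nat j)), ∀ b ∈ val (Gf M g) (Wn (nat k) (nat j)),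
      a = b) ↔ ty {z | z ∈ g k} k (Fin.cons (g j) (tp g k) : Fin (k + 1) → ZFSet.{0}) =
        ty M k (Fin.cons (g j) (tp g k) : Fin (k + 1) → ZFSet.{0}) := by
    intro j
    rw [Wn, cod_W, cod_W, val_up, slim_pair]
    have h2 := val_Xn_eq hg hM k (some k) none (k + 1) (nat j) (nat j) (Fin.cons j (tpi k))
      (Fin.cons j (tpi k))
    rw [cons_comp, comp_tpi] at h2
    exact h2
  constructor
  · intro h
    have hsub : ∀ y ∈ g k, ∃ i, g i = y := fun y hy => hg.surj y (hM _ (hg.mem k) _ hy)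
    refine ⟨fun i hi => ?_, fun y hy z hz => ?_, fun y hy => ?_⟩
    · have h2 : val (Gf M g) (up {pair ∅ (pat (nat i) (nat k))} (up ∅ ∅)) ∈
          val (Gf M g) (Sn (nat k)) := by
        rw [mem_val]
        refine ⟨_, one, one_mem, ?_, rfl⟩
        rw [Sn, ZFSet.mem_union, ZFSet.mem_union, mem_im, mem_im]
        exact Or.inl (Or.inr ⟨nat i, nat_mem_nat.2 hi, rfl⟩)
      have h3 := h _ h2
      rw [val_up, h1, slim_pair] at h3
      have h4 : (∅ : ZFSet.{0}) ∈ val (Gf M g) {pair ∅ (pat (nat i) (nat k))} := by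
        rw [h3]
        exact ZFSet.mem_singleton.2 rfl
      obtain ⟨τ, p, hp, h5, -⟩ := mem_val.1 h4
      rw [ZFSet.mem_singleton] at h5
      obtain ⟨rfl, rfl⟩ := ZFSet.pair_inj.1 h5
      exact (pat_mem (by omega)).1 hp
    · by_contra hzk
      obtain ⟨j, rfl⟩ := hsub y hy
      obtain ⟨i, rfl⟩ := hg.surj z (hM _ (hg.mem j) _ hz)
      have n1 : i ≠ j := by
        rintro rfl
        exact ZFSet.mem_irrefl _ hz
      have n2 : i ≠ k := by
        rintro rfl
        exact ZFSet.mem_asymm hy hz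
      have n3 : j ≠ k := by
        rintro rfl
        exact ZFSet.mem_irrefl _ hy
      have h2 : val (Gf M g) (up ∅ (up ∅ ∅)) ∈ val (Gf M g) (Sn (nat k)) := by
        rw [mem_val]
        refine ⟨_, _, (pat3_mem n1 n2 n3).2 ⟨hz, hy, hzk⟩, ?_, rfl⟩
        rw [Sn, ZFSet.mem_union, mem_im]
        right
        refine ⟨pair (nat i) (nat j), ?_, ?_⟩
        · rw [ZFSet.mem_sep, ZFSet.pair_mem_prod]
          simp only [fs_pair, sn_pair]
          exact ⟨⟨nat_mem_omega _, nat_mem_omega _⟩, fun h => n1 (nat_injective h),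
            fun h => n2 (nat_injective h), fun h => n3 (nat_injective h)⟩
        · simp only [fs_pair, sn_pair]
      have h3 := h _ h2
      rw [val_up, h1, slim_pair, val_empty] at h3
      exact empty_ne_single h3
    · obtain ⟨j, rfl⟩ := hsub y hy
      have n3 : j ≠ k := by
        rintro rfl
        exact ZFSet.mem_irrefl _ hy
      refine (hW j).1 (h _ ?_)
      rw [mem_val]
      refine ⟨_, _, (pat_mem n3).2 hy, ?_, rfl⟩
      rw [Sn, ZFSet.mem_union, ZFSet.mem_union, mem_im]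
      refine Or.inl (Or.inl ⟨nat j, ?_, rfl⟩)
      rw [ZFSet.mem_sep]
      exact ⟨nat_mem_omega _, fun h => n3 (nat_injective h)⟩
  · rintro ⟨h2, h3, h4⟩ z hz
    obtain ⟨τ, p, hp, h5, rfl⟩ := mem_val.1 hz
    rw [Sn, ZFSet.mem_union, ZFSet.mem_union, mem_im, mem_im, mem_im] at h5
    rcases h5 with (⟨j, hj, h5⟩ | ⟨i, hi, h5⟩) | ⟨u, hu, h5⟩
    · obtain ⟨rfl, rfl⟩ := ZFSet.pair_inj.1 h5
      rw [ZFSet.mem_sep] at hj
      obtain ⟨hj1, hj2⟩ := hj
      obtain ⟨j, rfl⟩ := mem_omega_iff.1 hj1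
      exact (hW j).2 (h4 _ ((pat_mem fun h => hj2 (by rw [h])).1 hp))
    · obtain ⟨rfl, rfl⟩ := ZFSet.pair_inj.1 h5
      obtain ⟨i, hi', rfl⟩ := mem_nat.1 hi
      rw [val_up, h1, slim_pair]
      ext y
      rw [mem_val, ZFSet.mem_singleton]
      constructor
      · rintro ⟨τ, p, hp, h6, rfl⟩
        rw [ZFSet.mem_singleton] at h6
        obtain ⟨rfl, rfl⟩ := ZFSet.pair_inj.1 h6
        exact val_empty
      · rintro rfl
        exact ⟨∅, _, (pat_mem (by omega)).2 (h2 i hi'), ZFSet.mem_singleton.2 rfl, val_empty.symm⟩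
    · obtain ⟨rfl, rfl⟩ := ZFSet.pair_inj.1 h5
      rw [ZFSet.mem_sep, ZFSet.mem_prod] at hu
      obtain ⟨⟨i, hi, j, hj, rfl⟩, hu⟩ := hu
      obtain ⟨i, rfl⟩ := mem_omega_iff.1 hi
      obtain ⟨j, rfl⟩ := mem_omega_iff.1 hj
      simp only [fs_pair, sn_pair] at hu hp
      obtain ⟨h6, h7, h8⟩ := (pat3_mem (fun h => hu.1 (by rw [h])) (fun h => hu.2.1 (by rw [h]))
        (fun h => hu.2.2 (by rw [h]))).1 hp
      exact absurd (h3 _ h7 _ h6) h8

theorem mem_val_Sg {y : ZFSet.{0}} :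
    y ∈ val (Gf M g) Sg ↔ ∃ k : ℕ, y = val (Gf M g) (Sn (nat k)) := by
  rw [mem_val]
  constructor
  · rintro ⟨τ, p, -, h, rfl⟩
    rw [Sg, mem_im] at h
    obtain ⟨k, hk, h⟩ := h
    obtain ⟨k, rfl⟩ := mem_omega_iff.1 hk
    exact ⟨k, by rw [(ZFSet.pair_inj.1 h).1]⟩
  · rintro ⟨k, rfl⟩
    exact ⟨_, one, one_mem, mem_im.2 ⟨nat k, nat_mem_omega k, rfl⟩, rfl⟩

end

end Q207.CM
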